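import Mathlib

/-!
# Sum-free subsets: basic definitions
-/

namespace SFree

open Finset

/-- `S` is sum-free: `a + b ∉ S` for `a, b ∈ S` (`a = b` is allowed, so `0 ∉ S`). -/
def SumFree (S : Set ℤ) : Prop := ∀ a ∈ S, ∀ b ∈ S, a + b ∉ S

open Classical in
/-- The number of elements of `S` in the window `(u, u + K]`. -/
noncomputable def cnt (S : Set ℤ) (u : ℤ) (K : ℕ) : ℕ := ((Ioc u (u + K)).filter (· ∈ S)).card

/-- `f n`: the largest number such that every set of `n` integers contains a sum-free subset of that
size, that is, the minimum over the `n`-element sets `A` of the maximal size of a sum-free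
subset of `A`. -/
noncomputable def f (n : ℕ) : ℕ :=
  sInf {m : ℕ | ∃ A : Finset ℤ, A.card = n ∧ ∀ B ⊆ A, SumFree (B : Set ℤ) → B.card ≤ m}

end SFree
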