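import Pool.Agent.SFree.Defs

/-!
# From the sets for the parameters `k` to all `n`
-/

namespace SFree

open Finset

theorem Asy.mono {S T : Set ℤ} (h : SumFree T) (hST : S ⊆ T) : SumFree S :=
  fun a ha b hb hab => h a (hST ha) b (hST hb) (hST hab)

/-- Disjoint dilates of a set of positive integers. -/
theorem Asy.build {A : Finset ℤ} {α : ℝ} (hpos : ∀ a ∈ A, 0 < a)
    (hA : ∀ B ⊆ A, SumFree (B : Set ℤ) → (B.card : ℝ) ≤ α * A.card) (q : ℕ) :
    ∃ A' : Finset ℤ, (∀ a ∈ A', 0 < a) ∧ A'.card = q * A.card ∧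
      ∀ B ⊆ A', SumFree (B : Set ℤ) → (B.card : ℝ) ≤ α * (q * A.card) := by
  classical
  induction q with
  | zero =>
    refine ⟨∅, by simp, by simp, fun B hB _ => ?_⟩
    rw [Finset.subset_empty.1 hB]
    simp
  | succ q ih =>
    obtain ⟨A', hpos', hcard', hA'⟩ := ih
    obtain ⟨P, hP0, hP⟩ : ∃ P : ℤ, 0 < P ∧ ∀ a ∈ A', a < P := by
      refine ⟨(∑ a ∈ A', a) + 1, ?_, ?_⟩
      · have := Finset.sum_nonneg (fun a ha => (hpos' a ha).le)
        omega
      · intro a ha
        have := Finset.single_le_sum (f := fun a : ℤ => a) (fun a ha => (hpos' a ha).le) ha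
        omega
    have hinj : Function.Injective (fun a : ℤ => P * a) := mul_right_injective₀ hP0.ne'
    set D := A.image (fun a => P * a) with hD
    have hdisj : Disjoint A' D := by
      rw [Finset.disjoint_left]
      intro x hx hxD
      obtain ⟨a, ha, rfl⟩ := Finset.mem_image.1 hxD
      have h1 := hP _ hx
      have h2 := hpos a ha
      nlinarith
    refine ⟨A' ∪ D, ?_, ?_, ?_⟩
    · intro a ha
      rcases Finset.mem_union.1 ha with ha | ha
      · exact hpos' a ha
      · obtain ⟨b, hb, rfl⟩ := Finset.mem_image.1 ha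
        have := hpos b hb
        positivity
    · rw [Finset.card_union_of_disjoint hdisj, hcard', hD, Finset.card_image_of_injective _ hinj]
      ring
    · intro B hB hBs
      set B1 := B ∩ A' with hB1
      set B2 := A.filter (fun a => P * a ∈ B) with hB2
      have h1 : (B1.card : ℝ) ≤ α * (q * A.card) :=
        hA' B1 Finset.inter_subset_right
          (Asy.mono hBs (by rw [hB1]; exact_mod_cast Finset.inter_subset_left))
      have h2 : (B2.card : ℝ) ≤ α * A.card := by
        refine hA B2 (Finset.filter_subset _ _) ?_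
        intro a ha b hb hab
        rw [Finset.mem_coe, hB2, Finset.mem_filter] at ha hb hab
        refine hBs _ (Finset.mem_coe.2 ha.2) _ (Finset.mem_coe.2 hb.2) ?_
        rw [← mul_add]
        exact Finset.mem_coe.2 hab.2
      have h3 : B.card ≤ B1.card + B2.card := by
        have h4 : B ⊆ B1 ∪ B2.image (fun a => P * a) := by
          intro x hx
          rcases Finset.mem_union.1 (hB hx) with h | h
          · exact Finset.mem_union_left _ (Finset.mem_inter.2 ⟨hx, h⟩)
          · obtain ⟨a, ha, rfl⟩ := Finset.mem_image.1 h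
            exact Finset.mem_union_right _ (Finset.mem_image.2
              ⟨a, Finset.mem_filter.2 ⟨ha, hx⟩, rfl⟩)
        calc B.card ≤ (B1 ∪ B2.image (fun a => P * a)).card := Finset.card_le_card h4
          _ ≤ B1.card + (B2.image (fun a => P * a)).card := Finset.card_union_le _ _
          _ ≤ B1.card + B2.card := Nat.add_le_add_left Finset.card_image_le _
      have h5 : (B.card : ℝ) ≤ B1.card + B2.card := by exact_mod_cast h3
      push_cast
      linarith

/-- the bound for all `n` from one set -/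
theorem Asy.f_le {A : Finset ℤ} {α : ℝ} (hα : 0 ≤ α) (hpos : ∀ a ∈ A, 0 < a) (h0 : 0 < A.card)
    (hA : ∀ B ⊆ A, SumFree (B : Set ℤ) → (B.card : ℝ) ≤ α * A.card) (n : ℕ) :
    (f n : ℝ) ≤ α * n + A.card := by
  classical
  obtain ⟨A', -, hcard, hA'⟩ := Asy.build hpos hA (n / A.card)
  have hdm := Nat.div_add_mod n A.card
  have hlt := Nat.mod_lt n h0
  have hle : A'.card ≤ n := by rw [hcard]; exact Nat.div_mul_le_self _ _
  obtain ⟨t, hsub, ht⟩ := Infinite.exists_superset_card_eq A' n hle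
  have hX : 0 ≤ α * n + A.card := by positivity
  have hm : f n ≤ ⌊α * n + A.card⌋₊ := by
    refine Nat.sInf_le ⟨t, ht, fun B hB hBs => Nat.le_floor ?_⟩
    have h1 : ((B ∩ A').card : ℝ) ≤ α * ((n / A.card : ℕ) * A.card) :=
      hA' _ Finset.inter_subset_right
        (Asy.mono hBs (by exact_mod_cast Finset.inter_subset_left))
    have h2 : (B \ A').card ≤ A.card := by
      have h3 : (B \ A').card ≤ (t \ A').card :=
        Finset.card_le_card (Finset.sdiff_subset_sdiff hB (Finset.Subset.refl _))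
      rw [Finset.card_sdiff_of_subset hsub, ht, hcard] at h3
      have : n - n / A.card * A.card = n % A.card := by
        rw [mul_comm]; omega
      omega
    have h4 : B.card = (B ∩ A').card + (B \ A').card :=
      (Finset.card_inter_add_card_sdiff B A').symm
    have h5 : α * (((n / A.card : ℕ) : ℝ) * A.card) ≤ α * n := by
      gcongr
      exact_mod_cast Nat.div_mul_le_self n A.card
    have h6 : ((B \ A').card : ℝ) ≤ A.card := by exact_mod_cast h2
    rw [h4]
    push_cast
    linarith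
  calc (f n : ℝ) ≤ (⌊α * n + A.card⌋₊ : ℝ) := by exact_mod_cast hm
    _ ≤ α * n + A.card := Nat.floor_le hX

theorem asym
    (h : ∃ C₀ : ℝ, ∀ k : ℕ, 2 ≤ k → ∃ A : Finset ℤ, (∀ a ∈ A, 0 < a) ∧ 0 < A.card ∧
      Real.log (Real.log A.card) ≤ C₀ * (k * Real.log k) ^ 2 ∧
      ∀ B ⊆ A, SumFree (B : Set ℤ) → (B.card : ℝ) ≤ (1 / 3 + 5 / k) * A.card) :
    ∃ C : ℝ, ∃ n₀ : ℕ, ∀ n : ℕ, n₀ ≤ n → (f n : ℝ) ≤
      n / 3 + C * n * Real.log (Real.log (Real.log n)) / Real.sqrt (Real.log (Real.log n)) := by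
  obtain ⟨C₀, hC₀⟩ := h
  set C₁ : ℝ := max C₀ 1 with hC₁
  have hC₁1 : 1 ≤ C₁ := le_max_right _ _
  have hC₁0 : 0 < C₁ := by linarith
  set c : ℝ := 1 / Real.sqrt C₁ with hc
  have hsq1 : 1 ≤ Real.sqrt C₁ := by rw [Real.one_le_sqrt]; exact hC₁1
  have hc0 : 0 < c := by positivity
  have hc1 : c ≤ 1 := by rw [hc, div_le_one (by positivity)]; exact hsq1
  have hcC : C₁ * c ^ 2 = 1 := by
    rw [hc, div_pow, Real.sq_sqrt hC₁0.le]
    field_simp
  refine ⟨10 / c + 1, ?_⟩
  -- eventual conditions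
  have hLtend : Filter.Tendsto (fun n : ℕ => Real.log (Real.log n)) Filter.atTop Filter.atTop :=
    Real.tendsto_log_atTop.comp (Real.tendsto_log_atTop.comp tendsto_natCast_atTop_atTop)
  have hltend : Filter.Tendsto (fun n : ℕ => Real.log n) Filter.atTop Filter.atTop :=
    Real.tendsto_log_atTop.comp tendsto_natCast_atTop_atTop
  have hlogo : ∀ᶠ x : ℝ in Filter.atTop, Real.log x ≤ (c / 2) * Real.sqrt x := by
    have h1 := (isLittleO_log_rpow_atTop (show (0 : ℝ) < 1 / 2 by norm_num)).bound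
      (show (0 : ℝ) < c / 2 by positivity)
    filter_upwards [h1, Filter.eventually_ge_atTop (1 : ℝ)] with x hx hx1
    rw [Real.norm_of_nonneg (Real.log_nonneg hx1), ← Real.sqrt_eq_rpow,
      Real.norm_of_nonneg (Real.sqrt_nonneg x)] at hx
    exact hx
  have hev : ∀ᶠ n : ℕ in Filter.atTop, Real.exp 1 ≤ Real.log (Real.log n) ∧
      Real.log (Real.log (Real.log n)) ≤ (c / 2) * Real.sqrt (Real.log (Real.log n)) ∧
      4 ≤ Real.log n ∧ 1 ≤ (n : ℝ) := by
    filter_upwards [hLtend.eventually_ge_atTop (Real.exp 1), hLtend.eventually hlogo,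
      hltend.eventually_ge_atTop 4, Filter.eventually_ge_atTop 1] with n h1 h2 h3 h4
    exact ⟨h1, h2, h3, by exact_mod_cast h4⟩
  obtain ⟨n₀, hn₀⟩ := Filter.eventually_atTop.1 hev
  refine ⟨n₀, fun n hn => ?_⟩
  obtain ⟨hL1, hL2, hl4, hn1⟩ := hn₀ n hn
  set l : ℝ := Real.log n with hl
  set L : ℝ := Real.log l with hL
  set M : ℝ := Real.log L with hM
  have hLpos : 0 < L := (Real.exp_pos 1).trans_le hL1
  have hM1 : 1 ≤ M := by
    rw [hM, ← Real.log_exp 1]
    exact Real.log_le_log (Real.exp_pos 1) hL1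
  have hM0 : 0 < M := by linarith
  have hsL : 0 < Real.sqrt L := Real.sqrt_pos.2 hLpos
  have hx2 : 2 ≤ c * Real.sqrt L / M := by
    rw [le_div_iff₀ hM0]; linarith
  set x : ℝ := c * Real.sqrt L / M with hx
  set k : ℕ := ⌊x⌋₊ with hk
  have hx0 : 0 ≤ x := by linarith
  have hk2 : 2 ≤ k := by
    rw [hk]; exact Nat.le_floor (by exact_mod_cast hx2)
  have hkx : (k : ℝ) ≤ x := Nat.floor_le hx0
  have hkx' : x / 2 ≤ k := by
    have h1 := Nat.lt_floor_add_one x
    rw [← hk] at h1
    have : (1 : ℝ) ≤ k := by exact_mod_cast (by omega : 1 ≤ k)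
    linarith
  have hk0 : (0 : ℝ) < k := by exact_mod_cast (by omega : 0 < k)
  obtain ⟨A, hpos, hA0, hAlog, hA⟩ := hC₀ k hk2
  have hf := Asy.f_le (by positivity) hpos hA0 hA n
  -- `log k ≤ M / 2`
  have hlogk0 : 0 ≤ Real.log k := Real.log_nonneg (by exact_mod_cast (by omega : 1 ≤ k))
  have hlogk : Real.log k ≤ M / 2 := by
    have h1 : (k : ℝ) ≤ Real.sqrt L := by
      refine hkx.trans ?_
      rw [hx, div_le_iff₀ hM0]
      nlinarith
    calc Real.log k ≤ Real.log (Real.sqrt L) := Real.log_le_log hk0 h1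
      _ = M / 2 := by rw [Real.log_sqrt hLpos.le]
  have hkk : (k * Real.log k) ^ 2 ≤ c ^ 2 * L / 4 := by
    have h1 : k * Real.log k ≤ c * Real.sqrt L / 2 := by
      calc k * Real.log k ≤ x * (M / 2) := by gcongr
        _ = c * Real.sqrt L / 2 := by rw [hx]; field_simp
    calc (k * Real.log k) ^ 2 ≤ (c * Real.sqrt L / 2) ^ 2 := by gcongr
      _ = c ^ 2 * L / 4 := by
        rw [div_pow, mul_pow, Real.sq_sqrt hLpos.le]; norm_num
  have hloglog : Real.log (Real.log A.card) ≤ L / 4 := by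
    calc Real.log (Real.log A.card) ≤ C₀ * (k * Real.log k) ^ 2 := hAlog
      _ ≤ C₁ * (k * Real.log k) ^ 2 := by
        gcongr
        exact le_max_left _ _
      _ ≤ C₁ * (c ^ 2 * L / 4) := by gcongr
      _ = L / 4 := by
        rw [show C₁ * (c ^ 2 * L / 4) = (C₁ * c ^ 2) * L / 4 by ring, hcC, one_mul]
  have hl0 : 0 < l := by linarith
  have hlogA : Real.log A.card ≤ l / 2 := by
    have hA1 : (1 : ℝ) ≤ A.card := by exact_mod_cast hA0
    rcases (Real.log_nonneg hA1).eq_or_lt with h1 | h1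
    · rw [← h1]; positivity
    · have h2 : Real.log A.card ≤ Real.exp (L / 4) := by
        rw [← Real.log_le_iff_le_exp h1]; exact hloglog
      have h3 : Real.exp (L / 4) ≤ Real.exp (L / 2) := Real.exp_le_exp.2 (by linarith)
      have h4 : Real.exp (L / 2) = Real.sqrt l := by
        rw [hL, ← Real.log_sqrt hl0.le, Real.exp_log (Real.sqrt_pos.2 hl0)]
      have h5 : Real.sqrt l ≤ l / 2 := by
        rw [Real.sqrt_le_left (by positivity)]
        nlinarith
      linarith
  have hn0 : (0 : ℝ) < n := by linarith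
  have hAcard : (A.card : ℝ) ≤ Real.sqrt n := by
    have h1 : Real.log A.card ≤ Real.log (Real.sqrt n) := by
      rw [Real.log_sqrt hn0.le]; exact hlogA
    exact (Real.log_le_log_iff (by exact_mod_cast hA0) (Real.sqrt_pos.2 hn0)).1 h1
  -- `√n ≤ n M / √L`
  have hLn : L ≤ n := by
    calc L ≤ l := (Real.log_le_sub_one_of_pos hl0).trans (by linarith)
      _ ≤ n := (Real.log_le_sub_one_of_pos hn0).trans (by linarith)
  have hsn : Real.sqrt n ≤ n * M / Real.sqrt L := by
    rw [le_div_iff₀ hsL]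
    have h1 : Real.sqrt L ≤ Real.sqrt n := Real.sqrt_le_sqrt hLn
    calc Real.sqrt n * Real.sqrt L ≤ Real.sqrt n * Real.sqrt n := by gcongr
      _ = n := Real.mul_self_sqrt hn0.le
      _ ≤ n * M := by nlinarith
  have h5k : 5 / (k : ℝ) ≤ 10 / c * (M / Real.sqrt L) := by
    have h1 : 5 / (k : ℝ) ≤ 5 / (x / 2) := by gcongr
    refine h1.trans (le_of_eq ?_)
    rw [hx]
    field_simp
    norm_num
  calc (f n : ℝ) ≤ (1 / 3 + 5 / k) * n + A.card := hf
    _ ≤ (1 / 3 + 10 / c * (M / Real.sqrt L)) * n + n * M / Real.sqrt L := by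
      gcongr
      exact hAcard.trans hsn
    _ = n / 3 + (10 / c + 1) * n * M / Real.sqrt L := by ring

end SFree
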