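import Pool.Agent.SFree.Defs

/-!
# Structure of a sum-free set which is dense at several scales
-/

namespace SFree

open Finset

/-- the elements of `S` in `(0, K]` -/
noncomputable def seg (S : Set ℤ) (K : ℕ) : Finset ℤ := by
  classical exact (Ioc (0 : ℤ) K).filter (· ∈ S)

theorem mem_seg {S : Set ℤ} {K : ℕ} {x : ℤ} : x ∈ seg S K ↔ (0 < x ∧ x ≤ K) ∧ x ∈ S := by
  simp [seg, and_assoc]

theorem card_seg (S : Set ℤ) (K : ℕ) : (seg S K).card = cnt S 0 K := by
  simp [seg, cnt]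

/-- the number of `x ∈ A` with `x - y ∈ A` -/
noncomputable def rep (A : Finset ℤ) (y : ℤ) : ℕ := (A.filter (fun x => x - y ∈ A)).card

theorem rep_neg (A : Finset ℤ) (y : ℤ) : rep A (-y) = rep A y := by
  unfold rep
  refine Finset.card_bij (fun x _ => x + y) ?_ ?_ ?_
  · intro x hx
    simp only [mem_filter] at hx ⊢
    refine ⟨by simpa using hx.2, by simpa using hx.1⟩
  · intro x _ x' _ h
    simpa using h
  · intro x hx
    simp only [mem_filter] at hx
    refine ⟨x - y, ?_, by ring⟩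
    simp only [mem_filter]
    exact ⟨hx.2, by simpa using hx.1⟩

/-- `y` is a difference of two elements of `B` -/
def dif (B : Finset ℤ) (y : ℤ) : Prop := ∃ b ∈ B, ∃ b' ∈ B, b - b' = y

theorem dif_neg {B : Finset ℤ} {y : ℤ} (h : dif B y) : dif B (-y) := by
  obtain ⟨b, hb, b', hb', rfl⟩ := h
  exact ⟨b', hb', b, hb, by ring⟩

theorem dif_neg_iff {B : Finset ℤ} {y : ℤ} : dif B (-y) ↔ dif B y :=
  ⟨fun h => by simpa using dif_neg h, dif_neg⟩

theorem not_dif_of_mem {S : Set ℤ} (hS : SumFree S) {B : Finset ℤ} (hB : ∀ b ∈ B, b ∈ S) {x : ℤ}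
    (hx : x ∈ S) : ¬ dif B x := by
  rintro ⟨b, hb, b', hb', h⟩
  have h1 : b = x + b' := by omega
  exact hS x hx b' (hB b' hb') (h1 ▸ hB b hb)

/-- Three translates of a set of density more than `1/3` cannot be disjoint. -/
theorem three {B : Finset ℤ} {u : ℤ} {N K : ℕ} (hBu : ∀ b ∈ B, u < b ∧ b ≤ u + N)
    (hB : N + 2 * K < 3 * B.card) {x y : ℤ} (hx : |x| ≤ K) (hy : |y| ≤ K) :
    dif B x ∨ dif B y ∨ dif B (x - y) := by
  by_contra hcon
  push Not at hcon
  obtain ⟨h1, h2, h3⟩ := hcon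
  have hx' := abs_le.1 hx
  have hy' := abs_le.1 hy
  have hinj : ∀ z : ℤ, (B.image (fun b => b + z)).card = B.card := fun z =>
    Finset.card_image_of_injective _ (fun a b h => by simpa using h)
  have d1 : Disjoint B (B.image (fun b => b + x)) := by
    rw [Finset.disjoint_left]
    intro b hb hb'
    obtain ⟨c, hc, hcb⟩ := Finset.mem_image.1 hb'
    exact h1 ⟨b, hb, c, hc, by omega⟩
  have d2 : Disjoint (B ∪ B.image (fun b => b + x)) (B.image (fun b => b + y)) := by
    rw [Finset.disjoint_left]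
    intro b hb hb'
    obtain ⟨c, hc, hcb⟩ := Finset.mem_image.1 hb'
    rcases Finset.mem_union.1 hb with hb | hb
    · exact h2 ⟨b, hb, c, hc, by omega⟩
    · obtain ⟨d, hd, hdb⟩ := Finset.mem_image.1 hb
      exact h3 ⟨c, hc, d, hd, by omega⟩
  have h4 : (B ∪ B.image (fun b => b + x) ∪ B.image (fun b => b + y)) ⊆
      Ioc (u - K) (u + N + K) := by
    intro b hb
    rw [Finset.mem_Ioc]
    rcases Finset.mem_union.1 hb with hb | hb
    · rcases Finset.mem_union.1 hb with hb | hb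
      · have := hBu b hb
        omega
      · obtain ⟨c, hc, rfl⟩ := Finset.mem_image.1 hb
        have := hBu c hc
        omega
    · obtain ⟨c, hc, rfl⟩ := Finset.mem_image.1 hb
      have := hBu c hc
      omega
  have h5 := Finset.card_le_card h4
  rw [Finset.card_union_of_disjoint d2, Finset.card_union_of_disjoint d1, hinj, hinj,
    Int.card_Ioc] at h5
  have h6 : (u + N + K - (u - K)).toNat = N + 2 * K := by omega
  omega

theorem quant_nonneg {S : Set ℤ} (hS : SumFree S) {ε : ℝ} {K l : ℕ} {B : Finset ℤ}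
    (hBS : ∀ b ∈ B, b ∈ S) (hd : (1 / 3 + ε) * K ≤ cnt S 0 K)
    (hw : ∀ b ∈ B, (1 / 3 - ε) * K ≤ (cnt S b K : ℝ)) (hl : 2 * (l : ℝ) ≤ ε * K) {y : ℤ}
    (hy0 : 0 ≤ y) (hy : y ≤ l) (hdif : dif B y) : ε * K / 2 ≤ rep (seg S K) y := by
  classical
  obtain ⟨b₁, hb₁, b₂, hb₂, rfl⟩ := hdif
  set A := seg S K with hA
  set W := (Ioc b₂ (b₂ + K)).filter (fun z => z ∉ S) with hW
  set X := A.image (fun a => b₂ + a) with hX
  set Y := (A.filter (fun a => a ≤ K - (b₁ - b₂))).image (fun a => b₁ + a) with hY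
  have cX : X.card = A.card := Finset.card_image_of_injective _ (fun a b h => by simpa using h)
  have cY : Y.card = (A.filter (fun a => a ≤ K - (b₁ - b₂))).card :=
    Finset.card_image_of_injective _ (fun a b h => by simpa using h)
  have cY2 : A.card ≤ (A.filter (fun a => a ≤ K - (b₁ - b₂))).card + l := by
    have h1 := Finset.card_filter_add_card_filter_not (s := A) (fun a : ℤ => a ≤ K - (b₁ - b₂))
    have h2 : (A.filter (fun a => ¬ a ≤ K - (b₁ - b₂))).card ≤ l := by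
      have h3 : A.filter (fun a => ¬ a ≤ K - (b₁ - b₂)) ⊆ Ioc (K - (b₁ - b₂)) (K : ℤ) := by
        intro a ha
        rw [Finset.mem_filter, hA, mem_seg] at ha
        rw [Finset.mem_Ioc]
        omega
      have h4 := Finset.card_le_card h3
      rw [Int.card_Ioc] at h4
      omega
    omega
  have cW : W.card + cnt S b₂ K = K := by
    have h1 := Finset.card_filter_add_card_filter_not (s := Ioc b₂ (b₂ + K)) (fun z : ℤ => z ∈ S)
    rw [Int.card_Ioc] at h1
    unfold cnt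
    rw [hW]
    have h2 : (b₂ + (K : ℤ) - b₂).toNat = K := by omega
    rw [h2] at h1
    convert (add_comm _ _).trans h1 using 3
  have hXW : X ⊆ W := by
    intro z hz
    obtain ⟨a, ha, rfl⟩ := Finset.mem_image.1 hz
    rw [hA, mem_seg] at ha
    rw [hW, Finset.mem_filter, Finset.mem_Ioc]
    exact ⟨by omega, hS b₂ (hBS _ hb₂) a ha.2⟩
  have hYW : Y ⊆ W := by
    intro z hz
    obtain ⟨a, ha, rfl⟩ := Finset.mem_image.1 hz
    rw [Finset.mem_filter, hA, mem_seg] at ha
    rw [hW, Finset.mem_filter, Finset.mem_Ioc]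
    exact ⟨by omega, hS b₁ (hBS _ hb₁) a ha.1.2⟩
  have hXY : (X ∩ Y).card ≤ rep A (b₁ - b₂) := by
    unfold rep
    refine Finset.card_le_card_of_injOn (fun z => z - b₂) ?_ ?_
    · intro z hz
      rw [Finset.mem_coe, Finset.mem_inter] at hz
      obtain ⟨a, ha, rfl⟩ := Finset.mem_image.1 hz.1
      obtain ⟨a', ha', h⟩ := Finset.mem_image.1 hz.2
      rw [Finset.mem_filter] at ha'
      rw [Finset.mem_coe, Finset.mem_filter]
      have h' : b₁ + a' = b₂ + a := h
      have e1 : b₂ + a - b₂ = a := by ring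
      have e2 : b₂ + a - b₂ - (b₁ - b₂) = a' := by omega
      refine ⟨?_, ?_⟩
      · show b₂ + a - b₂ ∈ A
        rw [e1]
        exact ha
      · show b₂ + a - b₂ - (b₁ - b₂) ∈ A
        rw [e2]
        exact ha'.1
    · intro z _ z' _ h
      simpa using h
  have hU : (X ∪ Y).card ≤ W.card := Finset.card_le_card (Finset.union_subset hXW hYW)
  have hIU := Finset.card_union_add_card_inter X Y
  have hfin : A.card + A.card + cnt S b₂ K ≤ K + l + rep A (b₁ - b₂) := by omega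
  have hfin' : (A.card : ℝ) + A.card + cnt S b₂ K ≤ K + l + rep A (b₁ - b₂) := by
    exact_mod_cast hfin
  have h7 : (A.card : ℝ) = cnt S 0 K := by rw [hA, card_seg]
  have h8 := hw b₂ hb₂
  rw [h7] at hfin'
  linarith

theorem quant {S : Set ℤ} (hS : SumFree S) {ε : ℝ} {K l : ℕ} {B : Finset ℤ}
    (hBS : ∀ b ∈ B, b ∈ S) (hd : (1 / 3 + ε) * K ≤ cnt S 0 K)
    (hw : ∀ b ∈ B, (1 / 3 - ε) * K ≤ (cnt S b K : ℝ)) (hl : 2 * (l : ℝ) ≤ ε * K) {y : ℤ}
    (hy : |y| ≤ l) (hdif : dif B y) : ε * K / 2 ≤ rep (seg S K) y := by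
  have hy' := abs_le.1 hy
  rcases le_total 0 y with h | h
  · exact quant_nonneg hS hBS hd hw hl h hy'.2 hdif
  · rw [← rep_neg]
    exact quant_nonneg hS hBS hd hw hl (by omega) (by omega) (dif_neg hdif)

/-! ### Sampling -/

theorem sampling {S : Set ℤ} (hS : SumFree S) {A₁ A₂ : Finset ℤ} {K₁ K₂ s : ℕ} {ε : ℝ}
    (hε : 0 < ε) (hε1 : ε ≤ 1 / 3) (h₁ : ∀ a ∈ A₁, a ∈ S ∧ 0 < a ∧ a ≤ K₁)
    (h₂ : ∀ a ∈ A₂, a ∈ S ∧ 0 < a ∧ a ≤ K₂) (hs : (1 - ε / 2) ^ s ≤ ε / 8)
    (hH : 2 * 3 ^ s ≤ K₁) (hd : K₂ + 2 * 3 ^ s ≤ 3 * A₂.card) :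
    ∃ h : ℕ, 1 ≤ h ∧ h ≤ 2 * 3 ^ s ∧
      ((A₁.filter (fun a => ε * K₂ / 2 ≤ (rep A₂ (a + h) : ℝ))).card : ℝ) < ε * K₁ / 2 := by
  classical
  set H : ℕ := 2 * 3 ^ s with hHdef
  have hHpos : 0 < H := by positivity
  have hK₁ : (0 : ℝ) < K₁ := by
    have : 0 < K₁ := by omega
    exact_mod_cast this
  have hA₂pos : 0 < A₂.card := by omega
  have hA₂K : A₂.card ≤ K₂ := by
    have h1 : A₂ ⊆ Ioc 0 (K₂ : ℤ) := fun a ha => by
      rw [Finset.mem_Ioc]
      exact (h₂ a ha).2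
    simpa using Finset.card_le_card h1
  set U : Finset ℤ := (Icc 1 ((K₁ : ℤ) + H)).filter (fun y => ε * K₂ / 2 ≤ (rep A₂ y : ℝ)) with hU
  set P : Finset (Fin s → ℤ) := Fintype.piFinset (fun _ => A₂) with hP
  let bad : (Fin s → ℤ) → Finset ℤ := fun x => U.filter (fun y => ∀ i, x i - y ∉ A₂)
  have hcardP : P.card = A₂.card ^ s := by simp [hP]
  have hUcard : (U.card : ℝ) ≤ 2 * K₁ := by
    have h1 : U.card ≤ K₁ + H := by
      refine (Finset.card_filter_le _ _).trans ?_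
      rw [Int.card_Icc]
      omega
    have h2 : U.card ≤ 2 * K₁ := by omega
    exact_mod_cast h2
  have hq0 : (0 : ℝ) ≤ 1 - ε / 2 := by linarith
  -- double counting
  have hsum : (∑ x ∈ P, ((bad x).card : ℝ)) ≤ (ε * K₁ / 4) * (A₂.card : ℝ) ^ s := by
    have h1 : ∑ x ∈ P, (bad x).card = ∑ y ∈ U, (P.filter (fun x => ∀ i, x i - y ∉ A₂)).card := by
      simp only [bad, Finset.card_filter]
      exact Finset.sum_comm
    have h2 : ∀ y ∈ U, ((P.filter (fun x => ∀ i, x i - y ∉ A₂)).card : ℝ) ≤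
        (A₂.card : ℝ) ^ s * (1 - ε / 2) ^ s := by
      intro y hy
      have h3 : P.filter (fun x => ∀ i, x i - y ∉ A₂) =
          Fintype.piFinset (fun _ => A₂.filter (fun x => x - y ∉ A₂)) := by
        ext x
        simp only [hP, Finset.mem_filter, Fintype.mem_piFinset]
        constructor
        · rintro ⟨h4, h5⟩ i
          exact ⟨h4 i, h5 i⟩
        · intro h4
          exact ⟨fun i => (h4 i).1, fun i => (h4 i).2⟩
      rw [h3, Fintype.card_piFinset_const, Nat.cast_pow, ← mul_pow]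
      apply pow_le_pow_left₀ (by positivity)
      have h4 := Finset.card_filter_add_card_filter_not (s := A₂) (fun x : ℤ => x - y ∈ A₂)
      have h5 : (rep A₂ y : ℝ) + ((A₂.filter (fun x => x - y ∉ A₂)).card : ℝ) = A₂.card := by
        unfold rep
        exact_mod_cast h4
      have h6 := (Finset.mem_filter.1 hy).2
      have h7 : (A₂.card : ℝ) ≤ K₂ := by exact_mod_cast hA₂K
      nlinarith
    have h8 : (∑ x ∈ P, ((bad x).card : ℝ)) =
        ∑ y ∈ U, ((P.filter (fun x => ∀ i, x i - y ∉ A₂)).card : ℝ) := by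
      exact_mod_cast h1
    rw [h8]
    refine (Finset.sum_le_sum h2).trans ?_
    rw [Finset.sum_const, nsmul_eq_mul]
    have h9 : (0 : ℝ) ≤ (A₂.card : ℝ) ^ s := by positivity
    calc (U.card : ℝ) * ((A₂.card : ℝ) ^ s * (1 - ε / 2) ^ s)
        ≤ (2 * K₁) * ((A₂.card : ℝ) ^ s * (ε / 8)) := by
          apply mul_le_mul hUcard _ (by positivity) (by positivity)
          exact mul_le_mul_of_nonneg_left hs h9
      _ = (ε * K₁ / 4) * (A₂.card : ℝ) ^ s := by ring
  set L : Finset (Fin s → ℤ) := P.filter (fun x => ((bad x).card : ℝ) < ε * K₁ / 2) with hL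
  have hLcard : (A₂.card : ℝ) ^ s ≤ 2 * L.card := by
    have h1 := Finset.card_filter_add_card_filter_not (s := P)
      (fun x => ((bad x).card : ℝ) < ε * K₁ / 2)
    have h2 : ((P.filter (fun x => ¬ ((bad x).card : ℝ) < ε * K₁ / 2)).card : ℝ) *
        (ε * K₁ / 2) ≤ ∑ x ∈ P, ((bad x).card : ℝ) := by
      rw [← nsmul_eq_mul]
      refine le_trans ?_ (Finset.sum_le_sum_of_subset_of_nonneg
        (Finset.filter_subset (fun x => ¬ ((bad x).card : ℝ) < ε * K₁ / 2) P)
        (fun x _ _ => by positivity))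
      refine Finset.card_nsmul_le_sum _ _ _ (fun x hx => ?_)
      exact not_lt.1 (Finset.mem_filter.1 hx).2
    have h3 : ((L.card : ℝ)) + ((P.filter (fun x => ¬ ((bad x).card : ℝ) < ε * K₁ / 2)).card : ℝ)
        = (A₂.card : ℝ) ^ s := by
      have : (A₂.card : ℝ) ^ s = (P.card : ℝ) := by rw [hcardP]; push_cast; rfl
      rw [this]
      exact_mod_cast h1
    have h4 : (0 : ℝ) < ε * K₁ / 4 := by positivity
    have h5 : 2 * ((P.filter (fun x => ¬ ((bad x).card : ℝ) < ε * K₁ / 2)).card : ℝ) ≤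
        (A₂.card : ℝ) ^ s := by
      have h6 := h2.trans hsum
      have h7 : (ε * K₁ / 4) * (2 * ((P.filter (fun x => ¬ ((bad x).card : ℝ) <
          ε * K₁ / 2)).card : ℝ)) ≤ (ε * K₁ / 4) * (A₂.card : ℝ) ^ s := by linarith
      exact le_of_mul_le_mul_left h7 h4
    linarith
  -- pigeonhole
  have hpig : ∃ p ∈ (Finset.range (H + 1)) ×ˢ L, ∃ q ∈ (Finset.range (H + 1)) ×ˢ L, p ≠ q ∧
      (fun p : ℕ × (Fin s → ℤ) => (fun i => p.2 i + (p.1 : ℤ))) p =
      (fun p : ℕ × (Fin s → ℤ) => (fun i => p.2 i + (p.1 : ℤ))) q := by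
    refine Finset.exists_ne_map_eq_of_card_lt_of_maps_to
      (t := Fintype.piFinset (fun _ : Fin s => Ioc (0 : ℤ) ((K₂ : ℤ) + H))) ?_ ?_
    · rw [Fintype.card_piFinset_const, Int.card_Ioc, Finset.card_product, Finset.card_range]
      have h1 : ((K₂ : ℤ) + H - 0).toNat = K₂ + H := by omega
      rw [h1]
      have h2 : (((K₂ + H) ^ s : ℕ) : ℝ) < (((H + 1) * L.card : ℕ) : ℝ) := by
        push_cast
        have h3 : ((K₂ : ℝ) + H) ≤ 3 * A₂.card := by exact_mod_cast hd
        have h4 : ((K₂ : ℝ) + H) ^ s ≤ 3 ^ s * (A₂.card : ℝ) ^ s := by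
          rw [← mul_pow]
          exact pow_le_pow_left₀ (by positivity) h3 s
        have h5 : (0 : ℝ) < (A₂.card : ℝ) ^ s := by
          have : (0 : ℝ) < A₂.card := by exact_mod_cast hA₂pos
          positivity
        have h6 : (0 : ℝ) < L.card := by linarith
        have h7 : (H : ℝ) = 2 * 3 ^ s := by rw [hHdef]; push_cast; ring
        have h8 : (0 : ℝ) < 3 ^ s := by positivity
        calc ((K₂ : ℝ) + H) ^ s ≤ 3 ^ s * (A₂.card : ℝ) ^ s := h4
          _ ≤ 3 ^ s * (2 * L.card) := mul_le_mul_of_nonneg_left hLcard h8.le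
          _ = (H : ℝ) * L.card := by rw [h7]; ring
          _ < ((H : ℝ) + 1) * L.card := by linarith
      exact_mod_cast h2
    · rintro ⟨z, x⟩ hzx
      rw [Finset.mem_coe, Finset.mem_product, Finset.mem_range, hL, Finset.mem_filter, hP,
        Fintype.mem_piFinset] at hzx
      rw [Finset.mem_coe, Fintype.mem_piFinset]
      intro i
      have h1 := h₂ _ (hzx.2.1 i)
      have h2 : z < H + 1 := hzx.1
      rw [Finset.mem_Ioc]
      show 0 < x i + (z : ℤ) ∧ x i + (z : ℤ) ≤ (K₂ : ℤ) + H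
      simp only at h1
      omega
  have key : ∀ z z' : ℕ, ∀ x x' : Fin s → ℤ, z < z' → z' ≤ H → x ∈ L → x' ∈ L →
      (∀ i, x i + (z : ℤ) = x' i + (z' : ℤ)) → ∃ h : ℕ, 1 ≤ h ∧ h ≤ H ∧
      ((A₁.filter (fun a => ε * K₂ / 2 ≤ (rep A₂ (a + h) : ℝ))).card : ℝ) < ε * K₁ / 2 := by
    intro z z' x x' hzz hz' hx hx' hxx
    refine ⟨z' - z, by omega, by omega, ?_⟩
    have hx1 := (Finset.mem_filter.1 hx).2
    have hx'1 := (Finset.mem_filter.1 hx').1
    rw [hP, Fintype.mem_piFinset] at hx'1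
    refine lt_of_le_of_lt ?_ hx1
    have h1 : (A₁.filter (fun a => ε * K₂ / 2 ≤ (rep A₂ (a + ((z' - z : ℕ) : ℤ)) : ℝ))).card ≤
        (bad x).card := by
      refine Finset.card_le_card_of_injOn (fun a => a + ((z' - z : ℕ) : ℤ)) ?_ ?_
      · intro a ha
        rw [Finset.mem_coe, Finset.mem_filter] at ha
        rw [Finset.mem_coe]
        simp only [bad, hU, Finset.mem_filter, Finset.mem_Icc]
        have h2 := h₁ a ha.1
        refine ⟨⟨⟨by omega, by omega⟩, ha.2⟩, fun i hi => ?_⟩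
        have h3 := hxx i
        have h4 : x i - (a + ((z' - z : ℕ) : ℤ)) = x' i - a := by omega
        rw [h4] at hi
        have h5 := (h₂ _ hi).1
        have h6 := (h₂ _ (hx'1 i)).1
        have h7 := hS _ h5 _ h2.1
        rw [sub_add_cancel] at h7
        exact h7 h6
      · intro a _ a' _ h
        simpa using h
    exact_mod_cast h1
  obtain ⟨⟨z, x⟩, hp, ⟨z', x'⟩, hq, hne, heq⟩ := hpig
  rw [Finset.mem_product, Finset.mem_range] at hp hq
  simp only at hp hq heq
  have heq' : ∀ i, x i + (z : ℤ) = x' i + (z' : ℤ) := fun i => congrFun heq i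
  rcases lt_trichotomy z z' with h | h | h
  · exact key z z' x x' h (by omega) hp.2 hq.2 heq'
  · subst h
    exfalso
    apply hne
    rw [Prod.mk.injEq]
    exact ⟨rfl, funext (fun i => by simpa using heq' i)⟩
  · exact key z' z x' x h (by omega) hq.2 hp.2 (fun i => (heq' i).symm)

end SFree
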