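import Pool.Agent.SFree.Defs
import Pool.Agent.Kneser.Basic

/-!
# A consequence of Kneser's theorem for large sum-free sets in `ZMod h`
-/

namespace SFree

open Finset Pool.Agent.Kneser
open scoped Pointwise

/-- A sum-free subset of `ZMod h` of density more than `1 / 3` avoids the multiples of a small
number `m`. -/
theorem exists_modulus {h : ℕ} [NeZero h] (C : Finset (ZMod h)) (hC : ∀ a ∈ C, ∀ b ∈ C, a + b ∉ C)
    (δ : ℝ) (hδ : 0 < δ) (hcard : (1 / 3 + δ) * h ≤ (C.card : ℝ)) :
    ∃ m : ℕ, 0 < m ∧ (m : ℝ) ≤ 1 / (3 * δ) ∧ ∀ t : ℤ, (((m : ℤ) * t : ℤ) : ZMod h) ∉ C := by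
  have hh : (0 : ℝ) < h := by exact_mod_cast Nat.pos_of_ne_zero (NeZero.ne h)
  have hne : C.Nonempty := by
    rw [Finset.nonempty_iff_ne_empty]
    rintro rfl
    rw [Finset.card_empty, Nat.cast_zero] at hcard
    have : 0 < (1 / 3 + δ) * h := by positivity
    linarith
  set H := stab (C + C) with hH
  let K : AddSubgroup (ZMod h) :=
    { carrier := {x | x ∈ H}
      add_mem' := fun ha hb => add_mem_stab ha hb
      zero_mem' := zero_mem_stab _
      neg_mem' := fun ha => neg_mem_stab ha }
  have hKmem : ∀ x, x ∈ K ↔ x ∈ H := fun x => Iff.rfl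
  have hKcard : Nat.card K = H.card := by
    have h1 : Nat.card K = Nat.card {x // x ∈ H} := rfl
    rw [h1, Nat.card_eq_fintype_card, Fintype.card_coe]
  have hidx := K.card_mul_index
  rw [hKcard, Nat.card_zmod] at hidx
  have hm0 : 0 < K.index := by
    rcases Nat.eq_zero_or_pos K.index with h0 | h0
    · rw [h0, mul_zero] at hidx
      exact absurd hidx.symm (NeZero.ne h)
    · exact h0
  -- the size of `H`
  have hkn := kneser_weak hne hne
  rw [← hH] at hkn
  have hdisj : Disjoint (C + C) C := by
    rw [Finset.disjoint_left]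
    intro x hx hxC
    obtain ⟨a, ha, b, hb, rfl⟩ := Finset.mem_add.1 hx
    exact hC a ha b hb hxC
  have hle : (C + C).card + C.card ≤ h := by
    rw [← Finset.card_union_of_disjoint hdisj]
    exact (Finset.card_le_univ _).trans (by rw [ZMod.card])
  have hHge : 3 * δ * h ≤ (H.card : ℝ) := by
    have h1 : (C.card : ℝ) + C.card ≤ (C + C).card + H.card := by exact_mod_cast hkn
    have h2 : ((C + C).card : ℝ) + C.card ≤ h := by exact_mod_cast hle
    nlinarith
  refine ⟨K.index, hm0, ?_, ?_⟩
  · rw [le_div_iff₀ (by positivity)]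
    have h3 : (H.card : ℝ) * K.index = h := by exact_mod_cast hidx
    have h4 : 3 * δ * h * K.index ≤ h := by
      calc 3 * δ * h * K.index ≤ H.card * K.index := by gcongr
        _ = h := h3
    have h5 : (3 * δ * K.index) * h ≤ 1 * h := by linarith
    have := le_of_mul_le_mul_right h5 hh
    linarith
  · intro t ht
    have h6 : K.index • (t : ZMod h) ∈ K := K.nsmul_index_mem _
    have h7 : (((K.index : ℤ) * t : ℤ) : ZMod h) = K.index • (t : ZMod h) := by
      push_cast
      rw [nsmul_eq_mul]
    rw [← h7, hKmem, hH, mem_stab] at h6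
    have h8 := (h6 _).1 (Finset.add_mem_add ht ht)
    exact (Finset.disjoint_left.1 hdisj h8) ht

end SFree
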