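import Pool.Agent.SFree.Core
import Pool.Agent.SFree.Kneser

/-!
# A sum-free set which is dense at several scales misses the multiples of a small number
-/

namespace SFree

open Finset

/-- the parameters and hypotheses of the structure theorem -/
structure CoreData (S : Set ℤ) (ε : ℝ) where
  hS : SumFree S
  hpos : ∀ s ∈ S, 0 < s
  hε : 0 < ε
  hε1 : ε ≤ 1 / 3
  K₀ : ℕ
  K₁ : ℕ
  K₂ : ℕ
  N : ℕ
  s : ℕ
  l₁ : ℕ
  l₂ : ℕ
  u : ℤ
  B : Finset ℤ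
  hBS : ∀ b ∈ B, b ∈ S
  hBu : ∀ b ∈ B, u < b ∧ b ≤ u + N
  hB : N + 2 * K₂ < 3 * B.card
  hw1 : ∀ b ∈ B, (1 / 3 - ε) * K₁ ≤ (cnt S b K₁ : ℝ)
  hw2 : ∀ b ∈ B, (1 / 3 - ε) * K₂ ≤ (cnt S b K₂ : ℝ)
  hd0 : (1 / 3 + ε) * K₀ ≤ (cnt S 0 K₀ : ℝ)
  hd1 : (1 / 3 + ε) * K₁ ≤ (cnt S 0 K₁ : ℝ)
  hd2 : (1 / 3 + ε) * K₂ ≤ (cnt S 0 K₂ : ℝ)
  hs : (1 - ε / 2) ^ s ≤ ε / 8
  h0 : 2 * 3 ^ s ≤ ε * K₀
  h01 : K₀ ≤ l₁
  h1 : 2 * (l₁ : ℝ) ≤ ε * K₁
  h12 : K₁ + l₁ ≤ l₂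
  h2 : 2 * (l₂ : ℝ) ≤ ε * K₂

namespace CoreData

variable {S : Set ℤ} {ε : ℝ} (D : CoreData S ε)

/-- the sum-free set of the small numbers which are not differences of `B` -/
def C (y : ℤ) : Prop := |y| ≤ D.l₂ ∧ ¬ dif D.B y

theorem C_neg {y : ℤ} (h : D.C y) : D.C (-y) := by
  refine ⟨by rw [abs_neg]; exact h.1, fun h' => h.2 ?_⟩
  have := dif_neg h'
  rwa [neg_neg] at this

theorem l₁_le_l₂ : D.l₁ ≤ D.l₂ := by
  have := D.h12
  omega

theorem K₁_le_l₂ : D.K₁ ≤ D.l₂ := by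
  have := D.h12
  omega

theorem l₂_le_K₂ : D.l₂ ≤ D.K₂ := by
  have h1 := D.h2
  have h2 := D.hε1
  have h3 : (0 : ℝ) ≤ D.K₂ := Nat.cast_nonneg _
  have h4 : ε * D.K₂ ≤ 1 * D.K₂ := mul_le_mul_of_nonneg_right (by linarith) h3
  have h5 : (0 : ℝ) ≤ D.l₂ := Nat.cast_nonneg _
  have h6 : (D.l₂ : ℝ) ≤ D.K₂ := by linarith
  exact_mod_cast h6

theorem C_of_mem {x : ℤ} (hx : x ∈ S) (hx' : x ≤ D.l₂) : D.C x :=
  ⟨by rw [abs_of_pos (D.hpos x hx)]; exact hx', not_dif_of_mem D.hS D.hBS hx⟩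

theorem not_C_sub {x y : ℤ} (hx : D.C x) (hy : D.C y) : ¬ D.C (x - y) := by
  intro h
  have h1 : (D.l₂ : ℤ) ≤ D.K₂ := by exact_mod_cast D.l₂_le_K₂
  rcases three D.hBu D.hB (hx.1.trans h1) (hy.1.trans h1) with h2 | h2 | h2
  · exact hx.2 h2
  · exact hy.2 h2
  · exact h.2 h2

theorem pow_le_K₀ : 2 * 3 ^ D.s * 3 ≤ D.K₀ := by
  have h1 := D.h0
  have h2 := D.hε1
  have h3 : (0 : ℝ) ≤ D.K₀ := Nat.cast_nonneg _
  have h4 : ε * D.K₀ ≤ 1 / 3 * D.K₀ := mul_le_mul_of_nonneg_right h2 h3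
  have h5 : (((2 * 3 ^ D.s * 3 : ℕ)) : ℝ) ≤ D.K₀ := by
    push_cast
    linarith
  exact_mod_cast h5

theorem K₀_le_K₁ : D.K₀ ≤ D.K₁ := by
  have h0 := D.h01
  have h1 := D.h1
  have h2 := D.hε1
  have h3 : (0 : ℝ) ≤ D.K₁ := Nat.cast_nonneg _
  have h4 : ε * D.K₁ ≤ 1 * D.K₁ := mul_le_mul_of_nonneg_right (by linarith) h3
  have h5 : (0 : ℝ) ≤ D.l₁ := Nat.cast_nonneg _
  have h6 : (D.l₁ : ℝ) ≤ D.K₁ := by linarith
  have h7 : D.l₁ ≤ D.K₁ := by exact_mod_cast h6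
  omega

/-- there is an exact period -/
theorem exists_period : ∃ h : ℕ, 1 ≤ h ∧ h ≤ 2 * 3 ^ D.s ∧
    ∀ c : ℤ, D.C c → |c| ≤ D.l₁ → |c + h| ≤ D.l₁ → D.C (c + h) := by
  classical
  have hp := D.pow_le_K₀
  have h01 := D.K₀_le_K₁
  have hK₂ : D.K₁ ≤ D.K₂ := D.K₁_le_l₂.trans D.l₂_le_K₂
  obtain ⟨h, hh1, hh2, hh3⟩ := sampling D.hS (A₁ := seg S D.K₁) (A₂ := seg S D.K₂) (K₁ := D.K₁)
    (K₂ := D.K₂) (s := D.s) D.hε D.hε1 (fun a ha => by
      rw [mem_seg] at ha; exact ⟨ha.2, ha.1⟩) (fun a ha => by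
      rw [mem_seg] at ha; exact ⟨ha.2, ha.1⟩) D.hs (by omega) (by
      rw [card_seg]
      have h1 := D.hd2
      have h2 : (2 * 3 ^ D.s : ℝ) ≤ ε * D.K₂ := by
        refine D.h0.trans (mul_le_mul_of_nonneg_left ?_ D.hε.le)
        exact_mod_cast h01.trans hK₂
      have h3 : (((D.K₂ + 2 * 3 ^ D.s : ℕ)) : ℝ) ≤ ((3 * cnt S 0 D.K₂ : ℕ) : ℝ) := by
        push_cast
        have h4 : (0 : ℝ) ≤ ε * D.K₂ := by
          have := D.hε
          positivity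
        linarith
      exact_mod_cast h3)
  refine ⟨h, hh1, hh2, fun c hc hc1 hc2 => ?_⟩
  by_contra hcon
  have hl12 : (D.l₁ : ℤ) ≤ D.l₂ := by exact_mod_cast D.l₁_le_l₂
  have hdif : dif D.B (c + h) := by
    by_contra h1
    exact hcon ⟨hc2.trans hl12, h1⟩
  have h1 := quant D.hS D.hBS D.hd1 D.hw1 D.h1 hc2 hdif
  have h2 : rep (seg S D.K₁) (c + h) ≤
      ((seg S D.K₁).filter (fun a => ε * D.K₂ / 2 ≤ (rep (seg S D.K₂) (a + h) : ℝ))).card := by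
    unfold rep
    refine Finset.card_le_card_of_injOn (fun x => x - (c + h)) ?_ ?_
    · intro x hx
      rw [Finset.mem_coe, Finset.mem_filter] at hx
      rw [Finset.mem_coe, Finset.mem_filter]
      refine ⟨hx.2, ?_⟩
      have e1 : x - (c + h) + h = x - c := by ring
      show ε * D.K₂ / 2 ≤ (rep (seg S D.K₂) (x - (c + h) + h) : ℝ)
      rw [e1]
      have hxs := mem_seg.1 hx.1
      have hK₁l : (D.K₁ : ℤ) + D.l₁ ≤ D.l₂ := by exact_mod_cast D.h12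
      have hxC : D.C x := D.C_of_mem hxs.2 (by omega)
      have hnC := D.not_C_sub hxC hc
      have hc1' := abs_le.1 hc1
      have hab : |x - c| ≤ D.l₂ := by
        rw [abs_le]
        omega
      have hd : dif D.B (x - c) := by
        by_contra h3
        exact hnC ⟨hab, h3⟩
      exact quant D.hS D.hBS D.hd2 D.hw2 D.h2 hab hd
    · intro x _ x' _ h
      simpa using h
  have h3 : (rep (seg S D.K₁) (c + h) : ℝ) ≤
      ((seg S D.K₁).filter (fun a => ε * D.K₂ / 2 ≤ (rep (seg S D.K₂) (a + h) : ℝ))).card := by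
    exact_mod_cast h2
  linarith

theorem C_add_mul {h : ℕ} (hper : ∀ c : ℤ, D.C c → |c| ≤ D.l₁ → |c + h| ≤ D.l₁ → D.C (c + h)) :
    ∀ (t : ℕ) (c : ℤ), D.C c → |c| ≤ D.l₁ → |c + h * t| ≤ D.l₁ → D.C (c + h * t) := by
  intro t
  induction t with
  | zero => intro c hc _ _; simpa using hc
  | succ t ih =>
    intro c hc h1 h2
    have h3 : (0 : ℤ) ≤ h * t := by positivity
    have h4 : (0 : ℤ) ≤ h := by positivity
    have e1 : c + (h : ℤ) * ((t + 1 : ℕ) : ℤ) = c + h * t + h := by push_cast; ring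
    rw [e1] at h2 ⊢
    have h1' := abs_le.1 h1
    have h2' := abs_le.1 h2
    have h5 : |c + h * t| ≤ D.l₁ := by
      rw [abs_le]
      constructor <;> linarith
    exact hper _ (ih c hc h1 h5) h5 h2

theorem C_of_modEq {h : ℕ} (hper : ∀ c : ℤ, D.C c → |c| ≤ D.l₁ → |c + h| ≤ D.l₁ → D.C (c + h))
    {c x : ℤ} (hc : D.C c) (h1 : |c| ≤ D.l₁) (h2 : |x| ≤ D.l₁) (h3 : (h : ℤ) ∣ x - c) :
    D.C x := by
  obtain ⟨t, ht⟩ := h3
  rcases le_total 0 t with h4 | h4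
  · obtain ⟨n, rfl⟩ := Int.eq_ofNat_of_zero_le h4
    have e1 : x = c + h * n := by linarith
    rw [e1] at h2 ⊢
    exact D.C_add_mul hper n c hc h1 h2
  · obtain ⟨n, hn⟩ := Int.eq_ofNat_of_zero_le (neg_nonneg.2 h4)
    have e1 : -x = -c + h * n := by
      rw [← hn]
      linarith
    have h5 := D.C_add_mul hper n (-c) (D.C_neg hc) (by rwa [abs_neg]) (by
      rw [← e1, abs_neg]
      exact h2)
    rw [← e1] at h5
    simpa using D.C_neg h5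

theorem card_fiber_le {h : ℕ} (hh : 0 < h) (K : ℕ) (r : ZMod h) :
    (((Ioc (0 : ℤ) K).filter (fun x : ℤ => (x : ZMod h) = r)).card : ℝ) ≤ K / h + 1 := by
  have : NeZero h := ⟨hh.ne'⟩
  have h1 : (Ioc (0 : ℤ) K).filter (fun x : ℤ => (x : ZMod h) = r) =
      (Ioc (0 : ℤ) K).filter (fun x => x ≡ (r.val : ℤ) [ZMOD h]) := by
    apply Finset.filter_congr
    intro x _
    rw [← ZMod.intCast_eq_intCast_iff]
    simp
  rw [h1]
  have h2 := Int.Ioc_filter_modEq_card (0 : ℤ) (K : ℤ) (r := (h : ℤ)) (by exact_mod_cast hh)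
    (r.val : ℤ)
  have h3 : (((Ioc (0 : ℤ) K).filter (fun x => x ≡ (r.val : ℤ) [ZMOD h])).card : ℤ) ≤
      max (⌊((K : ℤ) - (r.val : ℤ)) / (h : ℚ)⌋ - ⌊((0 : ℤ) - (r.val : ℤ)) / (h : ℚ)⌋) 0 := by
    rw [h2]
    norm_num
  have h4 : (((Ioc (0 : ℤ) K).filter (fun x => x ≡ (r.val : ℤ) [ZMOD h])).card : ℚ) ≤
      (K : ℚ) / h + 1 := by
    have hh' : (0 : ℚ) < h := by exact_mod_cast hh
    have h5 : (0 : ℚ) ≤ (K : ℚ) / h + 1 := by positivity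
    rcases le_total (⌊((K : ℤ) - (r.val : ℤ)) / (h : ℚ)⌋ - ⌊((0 : ℤ) - (r.val : ℤ)) / (h : ℚ)⌋) 0
      with h6 | h6
    · rw [max_eq_right h6] at h3
      have h7 : (((Ioc (0 : ℤ) K).filter (fun x => x ≡ (r.val : ℤ) [ZMOD h])).card : ℚ) ≤ 0 := by
        exact_mod_cast h3
      linarith
    · rw [max_eq_left h6] at h3
      have h7 : (((Ioc (0 : ℤ) K).filter (fun x => x ≡ (r.val : ℤ) [ZMOD h])).card : ℚ) ≤
          (⌊((K : ℤ) - (r.val : ℤ)) / (h : ℚ)⌋ : ℚ) - ⌊((0 : ℤ) - (r.val : ℤ)) / (h : ℚ)⌋ := by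
        exact_mod_cast h3
      have h8 := Int.floor_le (((K : ℤ) - (r.val : ℤ)) / (h : ℚ))
      have h9 := Int.lt_floor_add_one (((0 : ℤ) - (r.val : ℤ)) / (h : ℚ))
      have h10 : ((K : ℤ) - (r.val : ℤ)) / (h : ℚ) - ((0 : ℤ) - (r.val : ℤ)) / (h : ℚ) =
          (K : ℚ) / h := by
        push_cast
        ring
      push_cast at h8 h9 h10 h7 ⊢
      linarith
  have h11 : (((((Ioc (0 : ℤ) K).filter (fun x => x ≡ (r.val : ℤ) [ZMOD h])).card : ℚ)) : ℝ) ≤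
      (((K : ℚ) / h + 1 : ℚ) : ℝ) := Rat.cast_le.2 h4
  push_cast at h11
  exact h11

/-- The structure theorem. -/
theorem exists_mod : ∃ m : ℕ, 0 < m ∧ (m : ℝ) ≤ 2 / (3 * ε) ∧
    ∀ x ∈ S, x ≤ D.K₀ → ¬ (m : ℤ) ∣ x := by
  classical
  obtain ⟨h, hh1, hh2, hper⟩ := D.exists_period
  have : NeZero h := ⟨by omega⟩
  have hp := D.pow_le_K₀
  have hl₁ : D.K₀ ≤ D.l₁ := D.h01
  have hl12 := D.l₁_le_l₂
  have hε := D.hε
  set Ct : Finset (ZMod h) := ((Icc (-(D.l₁ : ℤ)) D.l₁).filter (fun y => D.C y)).image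
    (fun x : ℤ => (x : ZMod h)) with hCt
  have hmem : ∀ x : ℤ, |x| ≤ D.l₁ → D.C x → (x : ZMod h) ∈ Ct := by
    intro x h1 h2
    rw [hCt, Finset.mem_image]
    refine ⟨x, ?_, rfl⟩
    rw [Finset.mem_filter, Finset.mem_Icc]
    exact ⟨abs_le.1 h1, h2⟩
  have hmem' : ∀ x : ℤ, |x| ≤ D.l₁ → (x : ZMod h) ∈ Ct → D.C x := by
    intro x h1 h2
    rw [hCt, Finset.mem_image] at h2
    obtain ⟨c, h3, h4⟩ := h2
    rw [Finset.mem_filter, Finset.mem_Icc] at h3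
    refine D.C_of_modEq hper h3.2 (abs_le.2 h3.1) h1 ?_
    rw [ZMod.intCast_eq_intCast_iff_dvd_sub] at h4
    exact h4
  -- sum-free
  have hsf : ∀ a ∈ Ct, ∀ b ∈ Ct, a + b ∉ Ct := by
    intro a ha b hb hab
    have hav := ZMod.val_lt a
    have hbv := ZMod.val_lt b
    have ea : ((a.val : ℤ) : ZMod h) = a := by simp
    have eb : ((b.val : ℤ) : ZMod h) = b := by simp
    have h1 : D.C (a.val : ℤ) := hmem' _ (by rw [abs_le]; omega) (by rw [ea]; exact ha)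
    have h2 : D.C (b.val : ℤ) := hmem' _ (by rw [abs_le]; omega) (by rw [eb]; exact hb)
    have h3 : D.C ((a.val : ℤ) + b.val) := by
      refine hmem' _ (by rw [abs_le]; omega) ?_
      rw [Int.cast_add, ea, eb]
      exact hab
    have h4 := D.not_C_sub h1 (D.C_neg h2)
    rw [sub_neg_eq_add] at h4
    exact h4 h3
  -- density
  have hcard : (1 / 3 + ε / 2) * (h : ℝ) ≤ (Ct.card : ℝ) := by
    have h1 : ((seg S D.K₀).card : ℝ) ≤ Ct.card * ((D.K₀ : ℝ) / h + 1) := by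
      have h2 : seg S D.K₀ ⊆ Ct.biUnion (fun r => (Ioc (0 : ℤ) D.K₀).filter
          (fun x : ℤ => (x : ZMod h) = r)) := by
        intro x hx
        rw [mem_seg] at hx
        rw [Finset.mem_biUnion]
        refine ⟨(x : ZMod h), hmem x ?_ (D.C_of_mem hx.2 (by omega)), ?_⟩
        · rw [abs_of_pos hx.1.1]
          omega
        · rw [Finset.mem_filter, Finset.mem_Ioc]
          exact ⟨hx.1, rfl⟩
      have h3 : ((seg S D.K₀).card : ℝ) ≤ ∑ r ∈ Ct, (((Ioc (0 : ℤ) D.K₀).filter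
          (fun x : ℤ => (x : ZMod h) = r)).card : ℝ) := by
        exact_mod_cast (Finset.card_le_card h2).trans Finset.card_biUnion_le
      refine h3.trans ((Finset.sum_le_sum (fun r _ => card_fiber_le (h := h) hh1 D.K₀ r)).trans ?_)
      rw [Finset.sum_const, nsmul_eq_mul]
    rw [card_seg] at h1
    have h4 := D.hd0
    have hhpos : (0 : ℝ) < h := by exact_mod_cast (show 0 < h by omega)
    have hhK : (h : ℝ) ≤ ε * D.K₀ := by
      refine le_trans ?_ D.h0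
      exact_mod_cast hh2
    have hK₀ : (0 : ℝ) < D.K₀ := by
      have : 0 < D.K₀ := by
        have : 0 < 3 ^ D.s := by positivity
        omega
      exact_mod_cast this
    have h5 : (1 / 3 + ε) * D.K₀ ≤ Ct.card * ((D.K₀ : ℝ) / h + 1) := h4.trans h1
    have h6 : Ct.card * ((D.K₀ : ℝ) / h + 1) = Ct.card * (D.K₀ + h) / h := by
      field_simp
    rw [h6, le_div_iff₀ hhpos] at h5
    have h7 : (1 / 3 + ε / 2) * h * (D.K₀ + h) ≤ Ct.card * (D.K₀ + h) := by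
      refine le_trans ?_ h5
      have h8 : (1 / 3 + ε / 2) * (D.K₀ + h) ≤ (1 / 3 + ε) * D.K₀ := by
        have := D.hε1
        nlinarith
      nlinarith
    exact le_of_mul_le_mul_right h7 (by positivity)
  obtain ⟨m, hm1, hm2, hm3⟩ := exists_modulus Ct hsf (ε / 2) (by linarith) hcard
  refine ⟨m, hm1, ?_, fun x hx hxK hdvd => ?_⟩
  · have e1 : 1 / (3 * (ε / 2)) = 2 / (3 * ε) := by
      field_simp
    rwa [e1] at hm2
  · obtain ⟨t, rfl⟩ := hdvd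
    apply hm3 t
    have hpos := D.hpos _ hx
    apply hmem
    · rw [abs_of_pos hpos]
      omega
    · exact D.C_of_mem hx (by omega)

end CoreData

end SFree
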