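import Pool.Agent.SFree.Defs

/-!
# Divisors of a large power of a factorial are nearly invariant under multiplication
-/

namespace SFree

open Finset

theorem one_sub_sum_le_prod (P : Finset ℕ) (x : ℕ → ℝ) (h0 : ∀ p ∈ P, 0 ≤ x p)
    (h1 : ∀ p ∈ P, x p ≤ 1) : 1 - ∑ p ∈ P, x p ≤ ∏ p ∈ P, (1 - x p) ∧
      ∏ p ∈ P, (1 - x p) ≤ 1 ∧ 0 ≤ ∏ p ∈ P, (1 - x p) := by
  classical
  induction P using Finset.induction_on with
  | empty => simp
  | insert a s ha ih =>
    obtain ⟨i1, i2, i3⟩ := ih (fun p hp => h0 p (Finset.mem_insert_of_mem hp))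
      (fun p hp => h1 p (Finset.mem_insert_of_mem hp))
    have ha0 := h0 a (Finset.mem_insert_self a s)
    have ha1 := h1 a (Finset.mem_insert_self a s)
    rw [Finset.sum_insert ha, Finset.prod_insert ha]
    refine ⟨?_, ?_, mul_nonneg (by linarith) i3⟩
    · nlinarith
    · nlinarith

/-- `i * x` is again a divisor of `M` for most divisors `x` of `M = (K!)^T`, `i ≤ K`. -/
theorem folner {K T i : ℕ} (hT : 0 < T) (hi : 0 < i) (hiK : i ≤ K) :
    (1 - (i : ℝ) ^ 2 / T) * ((K.factorial ^ T).divisors.card : ℝ) ≤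
      (((K.factorial ^ T).divisors.filter
        (fun x => i * x ∈ (K.factorial ^ T).divisors)).card : ℝ) := by
  classical
  set M := K.factorial ^ T with hM
  have hM0 : M ≠ 0 := pow_ne_zero _ (Nat.factorial_ne_zero K)
  have hiM : i ∣ M := (Nat.dvd_factorial hi hiK).trans (dvd_pow_self _ hT.ne')
  have hdiv0 : M / i ≠ 0 := (Nat.div_pos (Nat.le_of_dvd (Nat.pos_of_ne_zero hM0) hiM) hi).ne'
  -- the filter is the set of divisors of `M / i`
  have h1 : (M.divisors.filter (fun x => i * x ∈ M.divisors)) = (M / i).divisors := by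
    ext x
    simp only [Finset.mem_filter, Nat.mem_divisors]
    constructor
    · rintro ⟨-, h2, -⟩
      exact ⟨(Nat.dvd_div_iff_mul_dvd hiM).2 h2, hdiv0⟩
    · rintro ⟨h2, -⟩
      have h3 := (Nat.dvd_div_iff_mul_dvd hiM).1 h2
      exact ⟨⟨(Dvd.intro_left i rfl).trans h3, hM0⟩, h3, hM0⟩
  rw [h1, Nat.card_divisors hM0, Nat.card_divisors hdiv0]
  have h2 : ∏ x ∈ (M / i).primeFactors, ((M / i).factorization x + 1) =
      ∏ x ∈ M.primeFactors, ((M / i).factorization x + 1) := by
    refine Finset.prod_subset (Nat.primeFactors_mono (Nat.div_dvd_of_dvd hiM) hM0) ?_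
    intro x _ hx
    rw [← Nat.support_factorization, Finsupp.notMem_support_iff] at hx
    rw [hx, Nat.zero_add]
  rw [h2]
  -- valuations
  have hval : ∀ p ∈ M.primeFactors, T ≤ M.factorization p := by
    intro p hp
    have h3 : p.Prime := Nat.prime_of_mem_primeFactors hp
    have h4 : p ∣ K.factorial := h3.dvd_of_dvd_pow (Nat.dvd_of_mem_primeFactors hp)
    rw [hM, Nat.factorization_pow]
    simp only [Finsupp.coe_smul, Pi.smul_apply, smul_eq_mul]
    have h5 : 1 ≤ K.factorial.factorization p :=
      (h3.dvd_iff_one_le_factorization (Nat.factorial_ne_zero K)).1 h4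
    nlinarith
  have hfac : ∀ p, (M / i).factorization p = M.factorization p - i.factorization p := by
    intro p
    rw [Nat.factorization_div hiM]
    rfl
  have hle : ∀ p, i.factorization p ≤ M.factorization p := by
    intro p
    exact (Nat.factorization_le_iff_dvd hi.ne' hM0).2 hiM p
  set x : ℕ → ℝ := fun p => (i.factorization p : ℝ) / ((M.factorization p : ℝ) + 1) with hx
  have hpos : ∀ p, (0 : ℝ) < (M.factorization p : ℝ) + 1 := fun p => by positivity
  have h3 := one_sub_sum_le_prod M.primeFactors x (fun p _ => by positivity) (fun p _ => by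
    simp only [hx]
    rw [div_le_one (hpos p)]
    have : (i.factorization p : ℝ) ≤ M.factorization p := by exact_mod_cast hle p
    linarith)
  have h4 : ∑ p ∈ M.primeFactors, x p ≤ (i : ℝ) ^ 2 / T := by
    have h5 : ∑ p ∈ M.primeFactors, x p ≤ ∑ p ∈ M.primeFactors, (i.factorization p : ℝ) / T := by
      refine Finset.sum_le_sum (fun p hp => ?_)
      simp only [hx]
      apply div_le_div_of_nonneg_left (Nat.cast_nonneg _) (by exact_mod_cast hT)
      have : (T : ℝ) ≤ M.factorization p := by exact_mod_cast hval p hp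
      linarith
    refine h5.trans ?_
    rw [← Finset.sum_div]
    apply div_le_div_of_nonneg_right _ (Nat.cast_nonneg _)
    have h6 : ∑ p ∈ i.primeFactors, i.factorization p = ∑ p ∈ M.primeFactors, i.factorization p := by
      refine Finset.sum_subset (Nat.primeFactors_mono hiM hM0) ?_
      intro y _ hy
      rwa [← Nat.support_factorization, Finsupp.notMem_support_iff] at hy
    have h7 : ∑ p ∈ i.primeFactors, i.factorization p ≤ i ^ 2 := by
      have h8 : ∀ p ∈ i.primeFactors, i.factorization p ≤ i := fun p _ =>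
        (Nat.factorization_lt p hi.ne').le
      refine (Finset.sum_le_card_nsmul _ _ _ h8).trans ?_
      rw [smul_eq_mul, sq]
      apply Nat.mul_le_mul_right
      have h9 : i.primeFactors ⊆ Icc 1 i := by
        intro p hp
        rw [Finset.mem_Icc]
        exact ⟨(Nat.prime_of_mem_primeFactors hp).one_lt.le, Nat.le_of_mem_primeFactors hp⟩
      simpa using Finset.card_le_card h9
    have h10 : ∑ p ∈ M.primeFactors, i.factorization p ≤ i ^ 2 := h6 ▸ h7
    exact_mod_cast h10
  have h5 : ((∏ p ∈ M.primeFactors, ((M / i).factorization p + 1) : ℕ) : ℝ) =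
      (∏ p ∈ M.primeFactors, (1 - x p)) * ((∏ p ∈ M.primeFactors, (M.factorization p + 1) : ℕ) : ℝ)
      := by
    push_cast
    rw [← Finset.prod_mul_distrib]
    refine Finset.prod_congr rfl (fun p _ => ?_)
    rw [hfac p, Nat.cast_sub (hle p)]
    simp only [hx]
    have := (hpos p).ne'
    field_simp
    ring
  rw [h5]
  apply mul_le_mul_of_nonneg_right _ (Nat.cast_nonneg _)
  linarith [h3.1]

/-- a crude bound for the number of divisors -/
theorem card_divisors_le {K T : ℕ} (hT : 0 < T) :
    (K.factorial ^ T).divisors.card ≤ (T * K.factorial + 1) ^ K := by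
  have hM0 : K.factorial ^ T ≠ 0 := pow_ne_zero _ (Nat.factorial_ne_zero K)
  rw [Nat.card_divisors hM0, Nat.primeFactors_pow _ hT.ne']
  have h1 : ∀ p ∈ K.factorial.primeFactors, (K.factorial ^ T).factorization p + 1 ≤
      T * K.factorial + 1 := by
    intro p _
    rw [Nat.factorization_pow]
    simp only [Finsupp.coe_smul, Pi.smul_apply, smul_eq_mul]
    have := (Nat.factorization_lt p (Nat.factorial_ne_zero K)).le
    have := Nat.mul_le_mul_left T this
    omega
  refine (Finset.prod_le_pow_card _ _ _ h1).trans ?_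
  apply Nat.pow_le_pow_right (Nat.succ_pos _)
  have h2 : K.factorial.primeFactors ⊆ Icc 1 K := by
    intro p hp
    rw [Finset.mem_Icc]
    have h3 := Nat.prime_of_mem_primeFactors hp
    exact ⟨h3.one_lt.le, (h3.dvd_factorial).1 (Nat.dvd_of_mem_primeFactors hp)⟩
  simpa using Finset.card_le_card h2

end SFree
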