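import Pool.Agent.SFree.Key
import Pool.Agent.SFree.Folner

/-!
# Averaging over dilates
-/

namespace SFree

open Finset

/-- the dilate `{y : y x ∈ B}` -/
def dil (B : Finset ℤ) (x : ℕ) : Set ℤ := {y | y * (x : ℤ) ∈ B}

theorem sumFree_dil {B : Finset ℤ} (hB : SumFree (B : Set ℤ)) (x : ℕ) : SumFree (dil B x) := by
  intro y hy y' hy' h
  have h1 : (y + y') * (x : ℤ) ∈ B := h
  rw [add_mul] at h1
  exact hB _ (Finset.mem_coe.2 hy) _ (Finset.mem_coe.2 hy') (Finset.mem_coe.2 h1)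

theorem dil_pos {B : Finset ℤ} (hB : ∀ b ∈ B, 0 < b) (x : ℕ) : ∀ y ∈ dil B x, 0 < y := by
  intro y hy
  have h1 : 0 < y * (x : ℤ) := hB _ hy
  exact pos_of_mul_pos_left h1 (Int.natCast_nonneg x)

theorem dil_mul (B : Finset ℤ) (x q : ℕ) : {y | (q : ℤ) * y ∈ dil B x} = dil B (q * x) := by
  ext y
  show (q : ℤ) * y * (x : ℤ) ∈ B ↔ y * ((q * x : ℕ) : ℤ) ∈ B
  have : (q : ℤ) * y * (x : ℤ) = y * ((q * x : ℕ) : ℤ) := by push_cast; ring
  rw [this]

/-- the elements `x` of `F` with `q x ∈ F` -/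
def keep (F : Finset ℕ) (q : ℕ) : Finset ℕ := F.filter (fun x => q * x ∈ F)

theorem card_dil_ge {F : Finset ℕ} {B : Finset ℤ} (hBF : B ⊆ F.map Nat.castEmbedding) {q : ℕ}
    (hq : 0 < q) : B.card + (keep F q).card ≤
      (F.filter (fun x : ℕ => (q : ℤ) * (x : ℤ) ∈ B)).card + F.card := by
  classical
  set I : Finset ℤ := (keep F q).image (fun x : ℕ => (q : ℤ) * (x : ℤ)) with hI
  have hqz : (q : ℤ) ≠ 0 := by exact_mod_cast hq.ne'
  have hinj : Function.Injective (fun x : ℕ => (q : ℤ) * (x : ℤ)) := by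
    intro a b h
    have := mul_left_cancel₀ hqz h
    exact_mod_cast this
  have hIc : I.card = (keep F q).card := Finset.card_image_of_injective _ hinj
  have hIF : I ⊆ F.map Nat.castEmbedding := by
    intro z hz
    obtain ⟨x, hx, rfl⟩ := Finset.mem_image.1 hz
    rw [Finset.mem_map]
    exact ⟨q * x, (Finset.mem_filter.1 hx).2, by simp⟩
  have h1 := Finset.card_union_add_card_inter B I
  have h2 : (B ∪ I).card ≤ F.card := by
    have := Finset.card_le_card (Finset.union_subset hBF hIF)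
    rwa [Finset.card_map] at this
  have h3 : (B ∩ I).card ≤ (F.filter (fun x : ℕ => (q : ℤ) * (x : ℤ) ∈ B)).card := by
    have h4 : B ∩ I ⊆ (F.filter (fun x : ℕ => (q : ℤ) * (x : ℤ) ∈ B)).image
        (fun x : ℕ => (q : ℤ) * (x : ℤ)) := by
      intro z hz
      rw [Finset.mem_inter] at hz
      obtain ⟨x, hx, rfl⟩ := Finset.mem_image.1 hz.2
      rw [Finset.mem_image]
      exact ⟨x, Finset.mem_filter.2 ⟨(Finset.mem_filter.1 hx).1, hz.1⟩, rfl⟩
    exact (Finset.card_le_card h4).trans Finset.card_image_le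
  omega

theorem sum_cnt_dil {F : Finset ℕ} {B : Finset ℤ} (hBF : B ⊆ F.map Nat.castEmbedding) {K : ℕ}
    {η : ℝ} (hη : ∀ i, 0 < i → i ≤ K → (1 - η) * (F.card : ℝ) ≤ (keep F i).card) :
    (K : ℝ) * ((B.card : ℝ) - η * F.card) ≤ ∑ x ∈ F, (cnt (dil B x) 0 K : ℝ) := by
  classical
  have h1 : (∑ x ∈ F, (cnt (dil B x) 0 K : ℝ)) =
      ∑ t ∈ Finset.range K, ((F.filter (fun x : ℕ => ((t + 1 : ℕ) : ℤ) * (x : ℤ) ∈ B)).card : ℝ) := by
    have h2 : ∑ x ∈ F, cnt (dil B x) 0 K =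
        ∑ t ∈ Finset.range K, (F.filter (fun x : ℕ => ((t + 1 : ℕ) : ℤ) * (x : ℤ) ∈ B)).card := by
      simp only [cnt_eq_sum, Finset.card_filter]
      rw [Finset.sum_comm]
      refine Finset.sum_congr rfl (fun t _ => Finset.sum_congr rfl (fun x _ => ?_))
      have e1 : (0 : ℤ) + ((t : ℤ) + 1) ∈ dil B x ↔ ((t + 1 : ℕ) : ℤ) * (x : ℤ) ∈ B := by
        show (0 + ((t : ℤ) + 1)) * (x : ℤ) ∈ B ↔ _
        rw [zero_add]
        push_cast
        rfl
      simp only [e1]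
    exact_mod_cast h2
  rw [h1, ← nsmul_eq_mul]
  have h3 := Finset.card_nsmul_le_sum (Finset.range K)
    (fun t => ((F.filter (fun x : ℕ => ((t + 1 : ℕ) : ℤ) * (x : ℤ) ∈ B)).card : ℝ))
    ((B.card : ℝ) - η * F.card) (fun t ht => by
      have h4 := card_dil_ge hBF (q := t + 1) (Nat.succ_pos t)
      have h5 := hη (t + 1) (Nat.succ_pos t) (Finset.mem_range.1 ht)
      have h6 : (B.card : ℝ) + (keep F (t + 1)).card ≤
        ((F.filter (fun x : ℕ => ((t + 1 : ℕ) : ℤ) * (x : ℤ) ∈ B)).card : ℝ) + F.card := by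
        exact_mod_cast h4
      linarith)
  rwa [Finset.card_range] at h3

theorem sum_zer_dil {F : Finset ℕ} {B : Finset ℤ} {q ρ J : ℕ} (hq : 0 < q) {η : ℝ}
    (hη : (1 - η) * (F.card : ℝ) ≤ (keep F q).card) :
    ∑ x ∈ F, (zer {y | (q : ℤ) * y ∈ dil B x} ρ J : ℝ) ≤
      (∑ x ∈ F, (zer (dil B x) ρ J : ℝ)) + J * (η * F.card) := by
  classical
  have h1 : ∑ x ∈ F, (zer {y | (q : ℤ) * y ∈ dil B x} ρ J : ℝ) =
      ∑ x ∈ F, (zer (dil B (q * x)) ρ J : ℝ) := by
    refine Finset.sum_congr rfl (fun x _ => ?_)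
    rw [dil_mul]
  rw [h1, ← Finset.sum_filter_add_sum_filter_not F (fun x => q * x ∈ F)]
  apply add_le_add
  · have h2 : ∑ x ∈ F.filter (fun x => q * x ∈ F), (zer (dil B (q * x)) ρ J : ℝ) =
        ∑ y ∈ (F.filter (fun x => q * x ∈ F)).image (fun x => q * x), (zer (dil B y) ρ J : ℝ) := by
      rw [Finset.sum_image]
      intro a _ b _ h
      exact Nat.eq_of_mul_eq_mul_left hq h
    rw [h2]
    refine Finset.sum_le_sum_of_subset_of_nonneg ?_ (fun _ _ _ => Nat.cast_nonneg _)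
    intro z hz
    obtain ⟨x, hx, rfl⟩ := Finset.mem_image.1 hz
    exact (Finset.mem_filter.1 hx).2
  · have h2 : ∀ x ∈ F.filter (fun x => ¬ q * x ∈ F), (zer (dil B (q * x)) ρ J : ℝ) ≤ J :=
      fun x _ => by exact_mod_cast zer_le _ ρ J
    refine (Finset.sum_le_card_nsmul _ _ _ h2).trans ?_
    rw [nsmul_eq_mul, mul_comm]
    apply mul_le_mul_of_nonneg_left _ (Nat.cast_nonneg _)
    have h3 := Finset.card_filter_add_card_filter_not (s := F) (fun x => q * x ∈ F)
    have h4 : ((keep F q).card : ℝ) + ((F.filter (fun x => ¬ q * x ∈ F)).card : ℝ) = F.card := by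
      unfold keep
      exact_mod_cast h3
    linarith

/-- The main inequality. -/
theorem main_ineq {F : Finset ℕ} (hF0 : ∀ x ∈ F, 0 < x) (hFne : 0 < F.card) {B : Finset ℤ}
    (hBF : B ⊆ F.map Nat.castEmbedding) (hB : SumFree (B : Set ℤ)) {R s ρ J : ℕ} (hR : 2 ≤ R)
    (hs : ∀ r, 2 ≤ r → r ≤ R → (1 - (1 / 2 : ℝ) ^ r / 2) ^ s ≤ (1 / 2 : ℝ) ^ r / 8)
    (hρ1 : 7 * 4 ^ R ≤ ρ) (hρ2 : 2 * 3 ^ s * 2 ^ R ≤ ρ) (hρ3 : (2 ^ R).factorial ≤ ρ)
    (hJ : J = 23 * R * 2 ^ R)
    (hη : ∀ i, 0 < i → i ≤ ρ ^ J → (1 - (1 / 2 : ℝ) ^ R) * (F.card : ℝ) ≤ (keep F i).card) :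
    (B.card : ℝ) ≤ (1 / 3 + 4 / 2 ^ R) * F.card := by
  classical
  set η : ℝ := (1 / 2 : ℝ) ^ R with hηdef
  have hηpos : 0 < η := by positivity
  have e1 : η = 1 / 2 ^ R := by rw [hηdef, one_div_pow]
  have hρpos : 0 < ρ := by
    have : 1 ≤ 4 ^ R := Nat.one_le_pow _ _ (by norm_num)
    omega
  have hJpos : 0 < J := by
    rw [hJ]
    positivity
  have hBpos : ∀ b ∈ B, 0 < b := by
    intro b hb
    have := hBF hb
    rw [Finset.mem_map] at this
    obtain ⟨x, hx, rfl⟩ := this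
    have h1 := hF0 x hx
    simpa using h1
  have hFr : (0 : ℝ) < F.card := by exact_mod_cast hFne
  have hJr : (0 : ℝ) < J := by exact_mod_cast hJpos
  -- the lower bound
  have hlow : (J : ℝ) * ((B.card : ℝ) - η * F.card) ≤ ∑ x ∈ F, tot (dil B x) ρ J := by
    unfold tot
    rw [Finset.sum_comm]
    have h1 : ∀ j ∈ Icc 1 J, ((B.card : ℝ) - η * F.card) ≤
        ∑ x ∈ F, (cnt (dil B x) 0 (ρ ^ j) : ℝ) / ((ρ ^ j : ℕ) : ℝ) := by
      intro j hj
      rw [Finset.mem_Icc] at hj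
      have h2 := sum_cnt_dil hBF (K := ρ ^ j) (η := η) (fun i h3 h4 =>
        hη i h3 (h4.trans (Nat.pow_le_pow_right hρpos hj.2)))
      have h3 : (0 : ℝ) < ((ρ ^ j : ℕ) : ℝ) := by positivity
      rw [← Finset.sum_div, le_div_iff₀ h3, mul_comm]
      exact h2
    have h2 := Finset.card_nsmul_le_sum _ _ _ h1
    rw [Nat.card_Icc, nsmul_eq_mul, Nat.add_sub_cancel] at h2
    exact h2
  -- the upper bound
  have hQ : (2 ^ R).factorial ≤ ρ ^ J := hρ3.trans (Nat.le_self_pow hJpos.ne' ρ)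
  have hup : ∑ x ∈ F, tot (dil B x) ρ J ≤ F.card * ((J : ℝ) / 3 + J / 2 ^ R + 1 / 3 + 22 * R) +
      J * (η * F.card) / 3 := by
    have h1 : ∀ x ∈ F, tot (dil B x) ρ J ≤ ((J : ℝ) / 3 + J / 2 ^ R + 1 / 3 + 22 * R) +
        ((zer {y | ((2 ^ R).factorial : ℤ) * y ∈ dil B x} ρ J : ℝ) - zer (dil B x) ρ J) / 3 := by
      intro x _
      have := row (sumFree_dil hB x) (dil_pos hBpos x) (J := J) hR hs hρ1 hρ2 hρ3
      linarith
    refine (Finset.sum_le_sum h1).trans ?_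
    rw [Finset.sum_add_distrib, Finset.sum_const, nsmul_eq_mul, ← Finset.sum_div,
      Finset.sum_sub_distrib]
    have h2 := sum_zer_dil (F := F) (B := B) (q := (2 ^ R).factorial) (ρ := ρ) (J := J) (η := η)
      (Nat.factorial_pos _) (hη _ (Nat.factorial_pos _) hQ)
    have h3 : (∑ x ∈ F, (zer {y | ((2 ^ R).factorial : ℤ) * y ∈ dil B x} ρ J : ℝ)) -
        ∑ x ∈ F, (zer (dil B x) ρ J : ℝ) ≤ J * (η * F.card) := by linarith
    linarith
  have hfin := hlow.trans hup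
  have hR1 : (1 : ℝ) ≤ R := by exact_mod_cast (by omega : 1 ≤ R)
  have h2R : (0 : ℝ) < 2 ^ R := by positivity
  have hJR : (J : ℝ) / 2 ^ R = 23 * R := by
    rw [hJ]
    push_cast
    field_simp
  have h4 : (1 : ℝ) / 3 + 22 * R ≤ J / 2 ^ R := by
    rw [hJR]
    linarith
  have h5 : (J : ℝ) * ((B.card : ℝ) - η * F.card) ≤
      J * (F.card * (1 / 3 + 2 / 2 ^ R) + η * F.card / 3) := by
    refine hfin.trans ?_
    have h6 : (F.card : ℝ) * ((J : ℝ) / 3 + J / 2 ^ R + 1 / 3 + 22 * R) ≤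
        F.card * ((J : ℝ) / 3 + J / 2 ^ R + J / 2 ^ R) := by
      apply mul_le_mul_of_nonneg_left _ hFr.le
      linarith
    refine (add_le_add_left h6 _).trans (le_of_eq ?_)
    ring
  have h6 := le_of_mul_le_mul_left h5 hJr
  rw [e1] at h6
  have h7 : (0 : ℝ) < 1 / 2 ^ R * F.card := by positivity
  have h8 : (2 : ℝ) / 2 ^ R = 2 * (1 / 2 ^ R) := by ring
  have h9 : (4 : ℝ) / 2 ^ R = 4 * (1 / 2 ^ R) := by ring
  rw [h8] at h6
  rw [h9]
  nlinarith

/-- The sets with small sum-free subsets. -/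
theorem exists_setR {R : ℕ} (hR : 2 ≤ R) : ∃ A : Finset ℤ, (∀ a ∈ A, 0 < a) ∧ 0 < A.card ∧
    Real.log (Real.log A.card) ≤ 736 * (R * 2 ^ R : ℝ) ^ 2 ∧
    ∀ B ⊆ A, SumFree (B : Set ℤ) → (B.card : ℝ) ≤ (1 / 3 + 4 / 2 ^ R) * A.card := by
  classical
  set s := 2 ^ (R + 1) * (R + 3) with hs
  set ρ := 7 * 4 ^ R * (2 * 3 ^ s * 2 ^ R) * (2 ^ R).factorial with hρ
  set J := 23 * R * 2 ^ R with hJ
  set K := ρ ^ J with hK
  set T := K ^ 2 * 2 ^ R with hT
  set F := (K.factorial ^ T).divisors with hF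
  have p1 : 0 < 7 * 4 ^ R := by positivity
  have p2 : 0 < 2 * 3 ^ s * 2 ^ R := by positivity
  have p3 : 0 < (2 ^ R).factorial := Nat.factorial_pos _
  have hρ1 : 7 * 4 ^ R ≤ ρ := by
    rw [hρ, mul_assoc]
    exact Nat.le_mul_of_pos_right _ (Nat.mul_pos p2 p3)
  have hρ2 : 2 * 3 ^ s * 2 ^ R ≤ ρ := by
    have e : ρ = (2 * 3 ^ s * 2 ^ R) * (7 * 4 ^ R * (2 ^ R).factorial) := by rw [hρ]; ring
    rw [e]
    exact Nat.le_mul_of_pos_right _ (Nat.mul_pos p1 p3)
  have hρ3 : (2 ^ R).factorial ≤ ρ := by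
    rw [hρ]
    exact Nat.le_mul_of_pos_left _ (Nat.mul_pos p1 p2)
  have hρpos : 0 < ρ := by omega
  have h2R : 1 ≤ 2 ^ R := Nat.one_le_two_pow
  have hJpos : 0 < J := by rw [hJ]; positivity
  have hρK : ρ ≤ K := Nat.le_self_pow hJpos.ne' ρ
  have hρbig : 7 * 4 ≤ ρ := by
    refine le_trans ?_ hρ1
    apply Nat.mul_le_mul_left
    calc 4 = 4 ^ 1 := by norm_num
      _ ≤ 4 ^ R := Nat.pow_le_pow_right (by norm_num) (by omega)
  have hKpos : 0 < K := by omega
  have hTpos : 0 < T := by rw [hT]; positivity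
  have hF0 : ∀ x ∈ F, 0 < x := fun x hx => Nat.pos_of_mem_divisors hx
  have hM0 : K.factorial ^ T ≠ 0 := pow_ne_zero _ (Nat.factorial_ne_zero K)
  have hFcard : 0 < F.card := Finset.card_pos.2 ⟨1, Nat.one_mem_divisors.2 hM0⟩
  have hη : ∀ i, 0 < i → i ≤ ρ ^ J → (1 - (1 / 2 : ℝ) ^ R) * (F.card : ℝ) ≤ (keep F i).card := by
    intro i hi hiK
    refine le_trans ?_ (folner (K := K) hTpos hi hiK)
    apply mul_le_mul_of_nonneg_right _ (Nat.cast_nonneg _)
    have h1 : (i : ℝ) ^ 2 / T ≤ (1 / 2 : ℝ) ^ R := by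
      have hTr : (0 : ℝ) < T := by exact_mod_cast hTpos
      rw [div_le_iff₀ hTr, hT]
      push_cast
      have h2 : (i : ℝ) ≤ K := by exact_mod_cast hiK
      have h3 : (1 / 2 : ℝ) ^ R * ((K : ℝ) ^ 2 * 2 ^ R) = K ^ 2 := by
        rw [one_div_pow]
        field_simp
      rw [h3]
      exact pow_le_pow_left₀ (Nat.cast_nonneg _) h2 2
    linarith
  have hsr : ∀ r, 2 ≤ r → r ≤ R → (1 - (1 / 2 : ℝ) ^ r / 2) ^ s ≤ (1 / 2 : ℝ) ^ r / 8 := by
    intro r hr hrR
    have hle : ((1 : ℝ) / 2) ^ R ≤ (1 / 2) ^ r :=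
      pow_le_pow_of_le_one (by norm_num) (by norm_num) hrR
    have hle1 : ((1 : ℝ) / 2) ^ r ≤ 1 := pow_le_one₀ (by norm_num) (by norm_num)
    have h1 : (1 - (1 / 2 : ℝ) ^ r / 2) ^ s ≤ (1 - (1 / 2 : ℝ) ^ R / 2) ^ s := by
      apply pow_le_pow_left₀
      · linarith
      · linarith
    refine h1.trans ?_
    have h2 : (1 - (1 / 2 : ℝ) ^ R / 2) ^ s ≤ Real.exp (-((1 / 2 : ℝ) ^ R / 2)) ^ s := by
      apply pow_le_pow_left₀
      · have : ((1 : ℝ) / 2) ^ R ≤ 1 := pow_le_one₀ (by norm_num) (by norm_num)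
        linarith
      · have := Real.add_one_le_exp (-((1 / 2 : ℝ) ^ R / 2))
        linarith
    refine h2.trans ?_
    rw [← Real.exp_nat_mul]
    have h3 : (s : ℝ) * -((1 / 2 : ℝ) ^ R / 2) = -((R : ℝ) + 3) := by
      rw [hs]
      push_cast
      rw [one_div_pow, pow_succ]
      field_simp
    rw [h3]
    have h4 : Real.exp (-((R : ℝ) + 3)) ≤ (1 / 2 : ℝ) ^ (R + 3) := by
      have h5 : Real.exp (-((R : ℝ) + 3)) = Real.exp (-1) ^ (R + 3) := by
        rw [← Real.exp_nat_mul]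
        push_cast
        ring_nf
      rw [h5]
      apply pow_le_pow_left₀ (Real.exp_pos _).le
      have h6 : Real.exp (-1) ≤ 1 / 2 := by
        rw [Real.exp_neg, ← one_div]
        apply one_div_le_one_div_of_le (by norm_num)
        have := Real.add_one_le_exp (1 : ℝ)
        linarith
      exact h6
    refine h4.trans ?_
    rw [pow_add]
    have : (1 / 2 : ℝ) ^ 3 = 1 / 8 := by norm_num
    rw [this]
    linarith
  refine ⟨F.map Nat.castEmbedding, ?_, by rwa [Finset.card_map], ?_, ?_⟩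
  · intro a ha
    rw [Finset.mem_map] at ha
    obtain ⟨x, hx, rfl⟩ := ha
    have := hF0 x hx
    simpa using this
  · rw [Finset.card_map]
    -- the size of F
    have hρr : (0 : ℝ) < ρ := by exact_mod_cast hρpos
    have hlogρ : Real.log ρ ≤ 8 * (R * 2 ^ R) := by
      have q1 : (0 : ℝ) < 7 * 4 ^ R := by positivity
      have q2 : (0 : ℝ) < 2 * 3 ^ s * 2 ^ R := by positivity
      have q3 : (0 : ℝ) < ((2 ^ R).factorial : ℝ) := by exact_mod_cast p3
      have h1 : (ρ : ℝ) = 7 * 4 ^ R * (2 * 3 ^ s * 2 ^ R) * ((2 ^ R).factorial : ℝ) := by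
        rw [hρ]
        push_cast
        ring
      rw [h1, Real.log_mul (by positivity) q3.ne', Real.log_mul q1.ne' q2.ne',
        Real.log_mul (by norm_num) (by positivity), Real.log_mul (by positivity) (by positivity),
        Real.log_mul (by norm_num) (by positivity), Real.log_pow, Real.log_pow, Real.log_pow]
      have l2 : Real.log 2 ≤ 0.7 := by have := Real.log_two_lt_d9; linarith
      have l2' : 0 < Real.log 2 := Real.log_pos (by norm_num)
      have l4 : Real.log 4 = 2 * Real.log 2 := by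
        have : (4 : ℝ) = 2 ^ 2 := by norm_num
        rw [this, Real.log_pow]
        norm_num
      have l3 : Real.log 3 ≤ 1.1 := by
        rw [Real.log_le_iff_le_exp (by norm_num)]
        have h2 := Real.quadratic_le_exp_of_nonneg (x := 1.1) (by norm_num)
        have h3 : (2.7 : ℝ) ≤ Real.exp 1 := by have := Real.exp_one_gt_d9; linarith
        have h4 : Real.exp 1.1 = Real.exp 1 * Real.exp 0.1 := by
          rw [← Real.exp_add]
          norm_num
        have h5 : (1.1 : ℝ) ≤ Real.exp 0.1 := by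
          have := Real.add_one_le_exp (0.1 : ℝ)
          linarith
        have h6 := Real.exp_one_gt_d9
        rw [h4]
        have h7 : (1.105 : ℝ) ≤ Real.exp 0.1 := by
          have := Real.quadratic_le_exp_of_nonneg (x := 0.1) (by norm_num)
          norm_num at this ⊢
          linarith
        nlinarith
      have l7 : Real.log 7 ≤ 2.1 := by
        have h2 : Real.log 7 ≤ Real.log 8 := Real.log_le_log (by norm_num) (by norm_num)
        have h3 : Real.log 8 = 3 * Real.log 2 := by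
          have : (8 : ℝ) = 2 ^ 3 := by norm_num
          rw [this, Real.log_pow]
          norm_num
        linarith
      have lf : Real.log ((2 ^ R).factorial : ℝ) ≤ 2 ^ R * (R * Real.log 2) := by
        have h2 : (2 ^ R).factorial ≤ (2 ^ R) ^ (2 ^ R) := Nat.factorial_le_pow _
        have h3 : (((2 ^ R).factorial : ℕ) : ℝ) ≤ ((2 : ℝ) ^ R) ^ (2 ^ R) := by exact_mod_cast h2
        refine (Real.log_le_log q3 h3).trans ?_
        rw [Real.log_pow, Real.log_pow]
        push_cast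
        exact le_rfl
      have hR2 : (2 : ℝ) ≤ R := by exact_mod_cast hR
      have h2R4 : (4 : ℝ) ≤ 2 ^ R := by
        calc (4 : ℝ) = 2 ^ 2 := by norm_num
          _ ≤ 2 ^ R := pow_le_pow_right₀ (by norm_num) hR
      have hsr : (s : ℝ) = 2 * 2 ^ R * (R + 3) := by
        rw [hs]
        push_cast
        rw [pow_succ]
        ring
      rw [hsr, l4]
      set P : ℝ := 2 ^ R with hP
      have hRP : (8 : ℝ) ≤ R * P := by nlinarith
      have t1 : (2 * P * (R + 3)) * Real.log 3 ≤ 5.5 * (R * P) := by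
        have h3 : 2 * P * ((R : ℝ) + 3) ≤ 5 * (R * P) := by nlinarith
        have h4 : (0 : ℝ) ≤ 2 * P * ((R : ℝ) + 3) := by positivity
        have h5 : (0 : ℝ) ≤ Real.log 3 := Real.log_nonneg (by norm_num)
        calc (2 * P * ((R : ℝ) + 3)) * Real.log 3 ≤ (2 * P * ((R : ℝ) + 3)) * 1.1 :=
              mul_le_mul_of_nonneg_left l3 h4
          _ ≤ 5.5 * (R * P) := by linarith
      have t2 : P * ((R : ℝ) * Real.log 2) ≤ 0.7 * (R * P) := by
        have h3 : (0 : ℝ) ≤ R * P := by positivity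
        calc P * ((R : ℝ) * Real.log 2) = (R * P) * Real.log 2 := by ring
          _ ≤ (R * P) * 0.7 := mul_le_mul_of_nonneg_left l2 h3
          _ = 0.7 * (R * P) := by ring
      have t3 : (R : ℝ) * Real.log 2 ≤ 0.7 / 4 * (R * P) := by nlinarith
      have t4 : (R : ℝ) * (2 * Real.log 2) ≤ 1.4 / 4 * (R * P) := by nlinarith
      nlinarith
    have hKr : (0 : ℝ) < K := by exact_mod_cast hKpos
    have hlogK : Real.log K = J * Real.log ρ := by
      rw [hK]
      push_cast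
      rw [Real.log_pow]
    have hlogK' : Real.log K ≤ 184 * (R * 2 ^ R : ℝ) ^ 2 := by
      rw [hlogK]
      have h1 : (J : ℝ) = 23 * (R * 2 ^ R) := by
        rw [hJ]
        push_cast
        ring
      rw [h1]
      have h2 : (0 : ℝ) ≤ 23 * (R * 2 ^ R) := by positivity
      calc 23 * ((R : ℝ) * 2 ^ R) * Real.log ρ ≤ 23 * ((R : ℝ) * 2 ^ R) * (8 * (R * 2 ^ R)) :=
            mul_le_mul_of_nonneg_left hlogρ h2
        _ = 184 * (R * 2 ^ R : ℝ) ^ 2 := by ring
    have hK4 : 28 ≤ K := by omega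
    -- |F| ≤ K ^ (2 K^2)
    have hFle : F.card ≤ K ^ (2 * K * K) := by
      refine (card_divisors_le hTpos).trans ?_
      rw [pow_mul]
      apply Nat.pow_le_pow_left
      have h1 : 2 ^ R ≤ K := by
        calc 2 ^ R ≤ 2 * 3 ^ s * 2 ^ R := Nat.le_mul_of_pos_left _ (by positivity)
          _ ≤ ρ := hρ2
          _ ≤ K := hρK
      have h2 : T ≤ K ^ 3 := by
        rw [hT, pow_succ K 2]
        exact Nat.mul_le_mul_left _ h1
      have h3 : K.factorial ≤ K ^ K := Nat.factorial_le_pow K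
      have h4 : T * K.factorial + 1 ≤ K ^ (K + 4) := by
        have h5 : T * K.factorial ≤ K ^ (K + 3) := by
          calc T * K.factorial ≤ K ^ 3 * K ^ K := Nat.mul_le_mul h2 h3
            _ = K ^ (K + 3) := by rw [← pow_add, add_comm]
        have h6 : K ^ (K + 4) = K ^ (K + 3) * K := by rw [← pow_succ]
        have h7 : 1 ≤ K ^ (K + 3) := Nat.one_le_pow _ _ hKpos
        rw [h6]
        nlinarith
      refine h4.trans (Nat.pow_le_pow_right hKpos (by omega))
    have hFr : (1 : ℝ) ≤ F.card := by exact_mod_cast hFcard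
    have hlogF : Real.log F.card ≤ K ^ 4 := by
      have h1 : (F.card : ℝ) ≤ (K : ℝ) ^ (2 * K * K) := by exact_mod_cast hFle
      have h2 := Real.log_le_log (by linarith) h1
      rw [Real.log_pow] at h2
      refine h2.trans ?_
      push_cast
      have h3 : Real.log K ≤ K := (Real.log_le_sub_one_of_pos hKr).trans (by linarith)
      have h4 : (28 : ℝ) ≤ K := by exact_mod_cast hK4
      calc 2 * (K : ℝ) * K * Real.log K ≤ 2 * (K : ℝ) * K * K :=
            mul_le_mul_of_nonneg_left h3 (by positivity)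
        _ = 2 * (K : ℝ) ^ 3 := by ring
        _ ≤ K * (K : ℝ) ^ 3 := mul_le_mul_of_nonneg_right (by linarith) (by positivity)
        _ = (K : ℝ) ^ 4 := by ring
    have hlogF0 : 0 ≤ Real.log F.card := Real.log_nonneg hFr
    rcases hlogF0.eq_or_lt with h0 | h0
    · rw [← h0, Real.log_zero]
      positivity
    · have h1 := Real.log_le_log h0 hlogF
      rw [Real.log_pow] at h1
      refine h1.trans ?_
      push_cast
      linarith
  · intro B hBF hB
    rw [Finset.card_map]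
    exact main_ineq hF0 hFcard hBF hB hR hsr hρ1 hρ2 hρ3 hJ hη

theorem exists_set (k : ℕ) (hk : 2 ≤ k) : ∃ A : Finset ℤ, (∀ a ∈ A, 0 < a) ∧ 0 < A.card ∧
    Real.log (Real.log A.card) ≤ 26496 * (k * Real.log k) ^ 2 ∧
    ∀ B ⊆ A, SumFree (B : Set ℤ) → (B.card : ℝ) ≤ (1 / 3 + 5 / k) * A.card := by
  set R := Nat.log 2 k + 1 with hR
  have h1 : 1 ≤ Nat.log 2 k := Nat.log_pos (by norm_num) hk
  obtain ⟨A, hA1, hA2, hA3, hA4⟩ := exists_setR (R := R) (by omega)
  have h2 : k < 2 ^ R := Nat.lt_pow_succ_log_self (by norm_num) k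
  have h3 : 2 ^ Nat.log 2 k ≤ k := Nat.pow_log_le_self 2 (by omega)
  have hkr : (0 : ℝ) < k := by exact_mod_cast (by omega : 0 < k)
  have h2' : (k : ℝ) ≤ 2 ^ R := by exact_mod_cast h2.le
  have h3' : (2 : ℝ) ^ R ≤ 2 * k := by
    have : 2 ^ R ≤ 2 * k := by
      rw [hR, pow_succ]
      omega
    exact_mod_cast this
  have hlogk : Real.log 2 ≤ Real.log k := Real.log_le_log (by norm_num) (by exact_mod_cast hk)
  have hl2 : 0.6931471803 < Real.log 2 := Real.log_two_gt_d9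
  have hRle : (R : ℝ) ≤ 3 * Real.log k := by
    have h4 : (Nat.log 2 k : ℝ) * Real.log 2 ≤ Real.log k := by
      rw [← Real.log_pow]
      apply Real.log_le_log (by positivity)
      exact_mod_cast h3
    have h5 : (R : ℝ) = Nat.log 2 k + 1 := by rw [hR]; push_cast; ring
    rw [h5]
    have h6 : (0 : ℝ) ≤ Nat.log 2 k := Nat.cast_nonneg _
    nlinarith
  refine ⟨A, hA1, hA2, hA3.trans ?_, fun B hB hB' => (hA4 B hB hB').trans ?_⟩
  · have h4 : (R : ℝ) * 2 ^ R ≤ 6 * (k * Real.log k) := by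
      have h5 : (0 : ℝ) ≤ 3 * Real.log k := by linarith
      calc (R : ℝ) * 2 ^ R ≤ (3 * Real.log k) * (2 * k) :=
            mul_le_mul hRle h3' (by positivity) h5
        _ = 6 * (k * Real.log k) := by ring
    have h5 : ((R : ℝ) * 2 ^ R) ^ 2 ≤ (6 * (k * Real.log k)) ^ 2 :=
      pow_le_pow_left₀ (by positivity) h4 2
    have h6 : (6 * ((k : ℝ) * Real.log k)) ^ 2 = 36 * (k * Real.log k) ^ 2 := by ring
    rw [h6] at h5
    linarith
  · apply mul_le_mul_of_nonneg_right _ (Nat.cast_nonneg _)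
    have h4 : (4 : ℝ) / 2 ^ R ≤ 5 / k := by
      rw [div_le_div_iff₀ (by positivity) hkr]
      nlinarith
    linarith

end SFree
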