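import Pool.Agent.SFree.Defs

/-!
# Windows of nearly maximal density
-/

namespace SFree

open Finset

theorem cnt_le (S : Set ℤ) (u : ℤ) (K : ℕ) : cnt S u K ≤ K := by
  classical
  unfold cnt
  refine (Finset.card_filter_le _ _).trans ?_
  rw [Int.card_Ioc]
  omega

theorem cnt_add (S : Set ℤ) (u : ℤ) (a b : ℕ) :
    cnt S u (a + b) = cnt S u a + cnt S (u + a) b := by
  classical
  unfold cnt
  rw [← Finset.card_union_of_disjoint]
  · congr 1
    ext x
    simp only [Finset.mem_filter, Finset.mem_union, Finset.mem_Ioc]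
    push_cast
    constructor
    · rintro ⟨h1, h2⟩
      by_cases h3 : x ≤ u + a
      · exact Or.inl ⟨⟨h1.1, h3⟩, h2⟩
      · exact Or.inr ⟨⟨by omega, by omega⟩, h2⟩
    · rintro (⟨h1, h2⟩ | ⟨h1, h2⟩)
      · exact ⟨⟨by omega, by omega⟩, h2⟩
      · exact ⟨⟨by omega, by omega⟩, h2⟩
  · rw [Finset.disjoint_left]
    intro x hx hx'
    simp only [Finset.mem_filter, Finset.mem_Ioc] at hx hx'
    omega

open Classical in
theorem cnt_eq_sum (S : Set ℤ) (u : ℤ) (K : ℕ) :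
    cnt S u K = ∑ t ∈ Finset.range K, if u + ((t : ℤ) + 1) ∈ S then 1 else 0 := by
  induction K with
  | zero => simp [cnt]
  | succ K ih =>
    rw [cnt_add, ih, Finset.sum_range_succ]
    congr 1
    unfold cnt
    have h1 : Ioc (u + (K : ℤ)) (u + K + ((1 : ℕ) : ℤ)) = {u + ((K : ℤ) + 1)} := by
      ext x
      simp only [Finset.mem_Ioc, Finset.mem_singleton]
      push_cast
      omega
    rw [h1, Finset.filter_singleton]
    split_ifs <;> simp

theorem sum_cnt (S : Set ℤ) (u : ℤ) (n K : ℕ) :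
    ∑ i ∈ Finset.range n, cnt S (u + ((i : ℤ) + 1)) K =
      ∑ t ∈ Finset.range K, cnt S (u + ((t : ℤ) + 1)) n := by
  classical
  simp only [cnt_eq_sum]
  rw [Finset.sum_comm]
  refine Finset.sum_congr rfl (fun t _ => Finset.sum_congr rfl (fun i _ => ?_))
  have e1 : u + ((i : ℤ) + 1) + ((t : ℤ) + 1) = u + ((t : ℤ) + 1) + ((i : ℤ) + 1) := by ring
  rw [e1]

/-- few windows of length `K` in a window of length `N` have low density -/
theorem bad_le {S : Set ℤ} {ε e : ℝ} (hε : 0 < ε) (he : 0 < e) {u : ℤ} {N K K₂ : ℕ} (hK : 0 < K)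
    (hKK : K ≤ K₂) (hK₂ : K₂ ≤ N) (hN : (1 / 3 + e) * N ≤ (cnt S u N : ℝ))
    (hmax : ∀ i < N - K₂, (cnt S (u + ((i : ℤ) + 1)) K : ℝ) ≤ (1 / 3 + e + e ^ 2 / 4) * K) :
    (((Finset.range (N - K₂)).filter
      (fun i : ℕ => (cnt S (u + ((i : ℤ) + 1)) K : ℝ) < (1 / 3 - ε) * K)).card : ℝ) ≤
      N * e / 4 + K₂ / e := by
  classical
  set n := N - K₂ with hn
  set bad := (Finset.range n).filter
    (fun i : ℕ => (cnt S (u + ((i : ℤ) + 1)) K : ℝ) < (1 / 3 - ε) * K) with hbad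
  have hKr : (0 : ℝ) < K := by exact_mod_cast hK
  -- lower bound for the sum
  have h1 : (K : ℝ) * ((cnt S u N : ℝ) - K₂) ≤
      ∑ i ∈ Finset.range n, (cnt S (u + ((i : ℤ) + 1)) K : ℝ) := by
    have h2 : (∑ i ∈ Finset.range n, (cnt S (u + ((i : ℤ) + 1)) K : ℝ)) =
        ∑ t ∈ Finset.range K, (cnt S (u + ((t : ℤ) + 1)) n : ℝ) := by
      exact_mod_cast sum_cnt S u n K
    rw [h2, ← nsmul_eq_mul]
    have h3 : ∀ t ∈ Finset.range K, ((cnt S u N : ℝ) - K₂) ≤ (cnt S (u + ((t : ℤ) + 1)) n : ℝ) := by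
      intro t ht
      have ht' := Finset.mem_range.1 ht
      have e1 : N = (t + 1) + (n + (K₂ - (t + 1))) := by omega
      have h4 : cnt S u N ≤ cnt S (u + ((t : ℤ) + 1)) n + K₂ := by
        have e2 : ((t + 1 : ℕ) : ℤ) = (t : ℤ) + 1 := by push_cast; ring
        have e3 : cnt S u N = cnt S u (t + 1) + (cnt S (u + ((t : ℤ) + 1)) n +
            cnt S (u + ((t : ℤ) + 1) + n) (K₂ - (t + 1))) := by
          rw [← cnt_add, ← e2, ← cnt_add, ← e1]
        have h5 := cnt_le S u (t + 1)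
        have h6 := cnt_le S (u + ((t : ℤ) + 1) + n) (K₂ - (t + 1))
        omega
      have h7 : (cnt S u N : ℝ) ≤ (cnt S (u + ((t : ℤ) + 1)) n : ℝ) + K₂ := by exact_mod_cast h4
      linarith
    have h8 := Finset.card_nsmul_le_sum (Finset.range K) _ _ h3
    rwa [Finset.card_range] at h8
  -- upper bound
  have h2 : (∑ i ∈ Finset.range n, (cnt S (u + ((i : ℤ) + 1)) K : ℝ)) ≤
      ((n : ℝ) - bad.card) * ((1 / 3 + e + e ^ 2 / 4) * K) + bad.card * ((1 / 3 - ε) * K) := by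
    rw [← Finset.sum_filter_add_sum_filter_not (Finset.range n)
      (fun i : ℕ => (cnt S (u + ((i : ℤ) + 1)) K : ℝ) < (1 / 3 - ε) * K), add_comm]
    apply add_le_add
    · have h3 := Finset.card_filter_add_card_filter_not (s := Finset.range n)
        (fun i : ℕ => (cnt S (u + ((i : ℤ) + 1)) K : ℝ) < (1 / 3 - ε) * K)
      rw [Finset.card_range] at h3
      have h4 : ((n : ℝ) - bad.card) = (((Finset.range n).filter
          (fun i : ℕ => ¬ (cnt S (u + ((i : ℤ) + 1)) K : ℝ) < (1 / 3 - ε) * K)).card : ℝ) := by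
        rw [hbad]
        have h5 : ((((Finset.range n).filter
          (fun i : ℕ => (cnt S (u + ((i : ℤ) + 1)) K : ℝ) < (1 / 3 - ε) * K)).card : ℝ)) +
          (((Finset.range n).filter
          (fun i : ℕ => ¬ (cnt S (u + ((i : ℤ) + 1)) K : ℝ) < (1 / 3 - ε) * K)).card : ℝ) = n := by
          exact_mod_cast h3
        linarith
      rw [h4, ← nsmul_eq_mul]
      refine Finset.sum_le_card_nsmul _ _ _ (fun i hi => ?_)
      exact hmax i (Finset.mem_range.1 (Finset.mem_filter.1 hi).1)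
    · rw [← nsmul_eq_mul]
      refine Finset.sum_le_card_nsmul _ _ _ (fun i hi => ?_)
      exact (Finset.mem_filter.1 hi).2.le
  have h3 := h1.trans h2
  have h4 : (K : ℝ) * ((cnt S u N : ℝ) - K₂) ≤ K * (((n : ℝ) - bad.card) *
      (1 / 3 + e + e ^ 2 / 4) + bad.card * (1 / 3 - ε)) := by
    refine h3.trans (le_of_eq (by ring))
  have h5 := le_of_mul_le_mul_left h4 hKr
  have h6 : (n : ℝ) ≤ N := by exact_mod_cast (by omega : n ≤ N)
  have h7 : (0 : ℝ) ≤ bad.card := Nat.cast_nonneg _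
  have h8 : (bad.card : ℝ) * e ≤ N * e ^ 2 / 4 + K₂ := by
    have h9 : (n : ℝ) * (1 / 3 + e + e ^ 2 / 4) ≤ N * (1 / 3 + e + e ^ 2 / 4) :=
      mul_le_mul_of_nonneg_right h6 (by positivity)
    have h10 : (0 : ℝ) ≤ bad.card * ε := by positivity
    have h11 : (0 : ℝ) ≤ bad.card * (e ^ 2 / 4) := by positivity
    nlinarith
  have h9 : (bad.card : ℝ) ≤ (N * e ^ 2 / 4 + K₂) / e := by
    rw [le_div_iff₀ he]
    exact h8
  refine h9.trans (le_of_eq ?_)
  field_simp

theorem exists_good_index {ε : ℝ} (hε : 0 < ε) {L : ℕ} (hL : 10 / ε + 3 < L) (e : ℕ → ℝ)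
    (he : ∀ i < L, ε ≤ e i) (he1 : ∀ i < L, e i ≤ 2 / 3) :
    ∃ i, 3 ≤ i ∧ i < L ∧ e (i - 1) ≤ e i + e i ^ 2 / 4 ∧ e (i - 2) ≤ e i + e i ^ 2 / 4 := by
  by_contra hcon
  push Not at hcon
  have step : ∀ x y : ℝ, 0 < x → x ≤ 2 / 3 → x + x ^ 2 / 4 < y → 1 / y + 1 / 5 ≤ 1 / x := by
    intro x y hx hx1 hxy
    have h1 : 0 < x + x ^ 2 / 4 := by positivity
    have h2 : 1 / y ≤ 1 / (x + x ^ 2 / 4) := one_div_le_one_div_of_le h1 hxy.le
    have h3 : 1 / (x + x ^ 2 / 4) + 1 / 5 ≤ 1 / x := by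
      rw [div_add_div _ _ h1.ne' (by norm_num), div_le_div_iff₀ (by positivity) hx]
      nlinarith [mul_pos hx hx, mul_pos (mul_pos hx hx) hx]
    linarith
  have key : ∀ i, i < L → ((i : ℝ) - 2) / 10 ≤ 1 / e i := by
    intro i
    induction i using Nat.strong_induction_on with
    | _ i ih =>
    intro hi
    have hpos : 0 < e i := hε.trans_le (he i hi)
    by_cases h3 : 3 ≤ i
    · by_cases h4 : e (i - 1) ≤ e i + e i ^ 2 / 4
      · have h5 := hcon i h3 hi h4
        have h6 := step _ _ hpos (he1 i hi) h5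
        have h7 := ih (i - 2) (by omega) (by omega)
        have h8 : ((i - 2 : ℕ) : ℝ) = (i : ℝ) - 2 := by
          rw [Nat.cast_sub (by omega)]
          norm_num
        rw [h8] at h7
        linarith
      · have h5 := not_le.1 h4
        have h6 := step _ _ hpos (he1 i hi) h5
        have h7 := ih (i - 1) (by omega) (by omega)
        have h8 : ((i - 1 : ℕ) : ℝ) = (i : ℝ) - 1 := by
          rw [Nat.cast_sub (by omega)]
          norm_num
        rw [h8] at h7
        linarith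
    · have h4 : (i : ℝ) ≤ 2 := by exact_mod_cast (by omega : i ≤ 2)
      have h5 : 0 < 1 / e i := by positivity
      linarith
  have hL1 : 0 < L := by
    have h1 : (0 : ℝ) < 10 / ε := by positivity
    have h2 : (0 : ℝ) < L := by linarith
    exact_mod_cast h2
  have h1 := key (L - 1) (by omega)
  have h2 : 1 / e (L - 1) ≤ 1 / ε := one_div_le_one_div_of_le hε (he (L - 1) (by omega))
  have h3 : ((L - 1 : ℕ) : ℝ) = (L : ℝ) - 1 := by
    rw [Nat.cast_sub (by omega)]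
    norm_num
  rw [h3] at h1
  have h4 : 10 / ε = 10 * (1 / ε) := by ring
  rw [h4] at hL
  linarith

/-- Among sufficiently many dense scales there are three consecutive ones which admit a good set of
elements in a window. -/
theorem windows {S : Set ℤ} {ε : ℝ} (hε : 0 < ε) (hε1 : ε ≤ 1 / 3) {L : ℕ}
    (hL : 10 / ε + 3 < L) (κ : ℕ → ℕ) (hκ0 : 0 < κ 0)
    (hκ : ∀ i, i + 1 < L → 7 / ε ^ 2 * κ i ≤ κ (i + 1))
    (hd : ∀ i < L, (1 / 3 + ε) * κ i ≤ (cnt S 0 (κ i) : ℝ)) :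
    ∃ i, 3 ≤ i ∧ i < L ∧ ∃ u : ℤ, ∃ B : Finset ℤ, (∀ b ∈ B, b ∈ S) ∧
      (∀ b ∈ B, u < b ∧ b ≤ u + κ i) ∧ κ i + 2 * κ (i - 1) < 3 * B.card ∧
      (∀ b ∈ B, (1 / 3 - ε) * κ (i - 2) ≤ (cnt S b (κ (i - 2)) : ℝ)) ∧
      (∀ b ∈ B, (1 / 3 - ε) * κ (i - 1) ≤ (cnt S b (κ (i - 1)) : ℝ)) := by
  classical
  have hratio : (1 : ℝ) ≤ 7 / ε ^ 2 := by
    rw [le_div_iff₀ (by positivity)]
    nlinarith
  have hmono1 : ∀ i, i + 1 < L → κ i ≤ κ (i + 1) := by
    intro i hi
    have h1 := hκ i hi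
    have h2 : (κ i : ℝ) ≤ κ (i + 1) := by
      refine le_trans ?_ h1
      have : (0 : ℝ) ≤ κ i := Nat.cast_nonneg _
      nlinarith
    exact_mod_cast h2
  have hmono : ∀ j i, i ≤ j → j < L → κ i ≤ κ j := by
    intro j
    induction j with
    | zero => intro i hi _; have : i = 0 := by omega
              subst this; exact le_rfl
    | succ j ih =>
      intro i hi hj
      rcases Nat.eq_or_lt_of_le hi with rfl | h
      · exact le_rfl
      · exact (ih i (by omega) (by omega)).trans (hmono1 j hj)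
  have hpos : ∀ i < L, 0 < κ i := fun i hi => hκ0.trans_le (hmono i 0 (Nat.zero_le _) hi)
  have hL1 : 3 < L := by
    have h1 : (0 : ℝ) < 10 / ε := by positivity
    have h2 : (3 : ℝ) < L := by linarith
    exact_mod_cast h2
  set T := κ (L - 1) with hT
  -- windows of maximal density
  have hmaxex : ∀ i : ℕ, ∃ u : ℤ, i < L → (0 ≤ u ∧ u + κ i ≤ T ∧
      ∀ v : ℤ, 0 ≤ v → v + κ i ≤ T → cnt S v (κ i) ≤ cnt S u (κ i)) := by
    intro i
    by_cases hi : i < L
    · have h1 : κ i ≤ T := hmono (L - 1) i (by omega) (by omega)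
      have hne : (Icc (0 : ℤ) ((T : ℤ) - κ i)).Nonempty := ⟨0, by
        rw [Finset.mem_Icc]
        omega⟩
      obtain ⟨u, hu, hu'⟩ := Finset.exists_max_image (Icc (0 : ℤ) ((T : ℤ) - κ i))
        (fun v => cnt S v (κ i)) hne
      rw [Finset.mem_Icc] at hu
      refine ⟨u, fun _ => ⟨hu.1, by omega, fun v hv hv' => ?_⟩⟩
      exact hu' v (by rw [Finset.mem_Icc]; omega)
    · exact ⟨0, fun h => absurd h hi⟩
  choose U hU using hmaxex
  set e : ℕ → ℝ := fun i => (cnt S (U i) (κ i) : ℝ) / κ i - 1 / 3 with he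
  have hκr : ∀ i < L, (0 : ℝ) < κ i := fun i hi => by exact_mod_cast hpos i hi
  have he0 : ∀ i < L, ε ≤ e i := by
    intro i hi
    have h1 := (hU i hi).2.2 0 le_rfl (by
      have := hmono (L - 1) i (by omega) (by omega)
      rw [zero_add]
      exact_mod_cast this)
    have h2 := hd i hi
    have h3 : (cnt S 0 (κ i) : ℝ) ≤ cnt S (U i) (κ i) := by exact_mod_cast h1
    have h4 : 1 / 3 + ε ≤ (cnt S (U i) (κ i) : ℝ) / κ i := by
      rw [le_div_iff₀ (hκr i hi)]
      linarith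
    simp only [he]
    linarith
  have he1 : ∀ i < L, e i ≤ 2 / 3 := by
    intro i hi
    have h1 : (cnt S (U i) (κ i) : ℝ) ≤ κ i := by exact_mod_cast cnt_le S (U i) (κ i)
    have h2 : (cnt S (U i) (κ i) : ℝ) / κ i ≤ 1 := by
      rw [div_le_one (hκr i hi)]
      exact h1
    simp only [he]
    linarith
  have hcnt : ∀ i < L, (cnt S (U i) (κ i) : ℝ) = (1 / 3 + e i) * κ i := by
    intro i hi
    simp only [he]
    have := hκr i hi
    field_simp
    ring
  obtain ⟨i, hi3, hiL, hg1, hg2⟩ := exists_good_index hε hL e he0 he1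
  refine ⟨i, hi3, hiL, U i, ?_⟩
  set N := κ i with hN
  set K₂ := κ (i - 1) with hK₂
  set K₁ := κ (i - 2) with hK₁
  have hK₁K₂ : K₁ ≤ K₂ := hmono (i - 1) (i - 2) (by omega) (by omega)
  have hK₂N : K₂ ≤ N := hmono i (i - 1) (by omega) hiL
  have hK₁pos : 0 < K₁ := hpos (i - 2) (by omega)
  have hK₂pos : 0 < K₂ := hpos (i - 1) (by omega)
  have hei := hε.trans_le (he0 i hiL)
  have hei1 := he1 i hiL
  have hcN := hcnt i hiL
  have hUi := hU i hiL
  have hwin : ∀ (j : ℕ), j < L → κ j ≤ K₂ → e j ≤ e i + e i ^ 2 / 4 → ∀ t < N - K₂,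
      (cnt S (U i + ((t : ℤ) + 1)) (κ j) : ℝ) ≤ (1 / 3 + e i + e i ^ 2 / 4) * κ j := by
    intro j hj hjK hej t ht
    have h1 := (hU j hj).2.2 (U i + ((t : ℤ) + 1)) (by have := hUi.1; omega) (by
      have h2 := hUi.2.1
      have h3 : (κ j : ℤ) ≤ K₂ := by exact_mod_cast hjK
      omega)
    have h2 : (cnt S (U i + ((t : ℤ) + 1)) (κ j) : ℝ) ≤ cnt S (U j) (κ j) := by exact_mod_cast h1
    rw [hcnt j hj] at h2
    refine h2.trans (mul_le_mul_of_nonneg_right ?_ (Nat.cast_nonneg _))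
    linarith
  have hb2 := bad_le (S := S) (ε := ε) (u := U i) hε hei hK₂pos le_rfl hK₂N hcN.ge
    (hwin (i - 1) (by omega) le_rfl hg1)
  have hb1 := bad_le (S := S) (ε := ε) (u := U i) hε hei hK₁pos hK₁K₂ hK₂N hcN.ge
    (hwin (i - 2) (by omega) hK₁K₂ hg2)
  set n := N - K₂ with hn
  set bad1 := (Finset.range n).filter
    (fun t : ℕ => (cnt S (U i + ((t : ℤ) + 1)) K₁ : ℝ) < (1 / 3 - ε) * K₁) with hbad1
  set bad2 := (Finset.range n).filter
    (fun t : ℕ => (cnt S (U i + ((t : ℤ) + 1)) K₂ : ℝ) < (1 / 3 - ε) * K₂) with hbad2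
  set G := (Finset.range n).filter (fun t : ℕ => U i + ((t : ℤ) + 1) ∈ S) with hG
  set G' := (G \ bad1) \ bad2 with hG'
  refine ⟨G'.image (fun t : ℕ => U i + ((t : ℤ) + 1)), ?_, ?_, ?_, ?_, ?_⟩
  · intro b hb
    obtain ⟨t, ht, rfl⟩ := Finset.mem_image.1 hb
    exact (Finset.mem_filter.1 (Finset.mem_sdiff.1 (Finset.mem_sdiff.1 ht).1).1).2
  · intro b hb
    obtain ⟨t, ht, rfl⟩ := Finset.mem_image.1 hb
    have h1 := Finset.mem_range.1
      (Finset.mem_filter.1 (Finset.mem_sdiff.1 (Finset.mem_sdiff.1 ht).1).1).1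
    omega
  · have hcard : (G'.image (fun t : ℕ => U i + ((t : ℤ) + 1))).card = G'.card :=
      Finset.card_image_of_injective _ (fun a b h => by simpa using h)
    rw [hcard]
    have h1 : G.card ≤ G'.card + bad1.card + bad2.card := by
      have h2 := Finset.le_card_sdiff bad1 G
      have h3 := Finset.le_card_sdiff bad2 (G \ bad1)
      rw [← hG'] at h3
      omega
    have h2 : G.card = cnt S (U i) n := by
      rw [cnt_eq_sum, hG, Finset.card_filter]
    have h3 : cnt S (U i) N ≤ cnt S (U i) n + K₂ := by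
      have e1 : N = n + K₂ := by omega
      conv_lhs => rw [e1]
      rw [cnt_add]
      have := cnt_le S (U i + n) K₂
      omega
    have h4 : (cnt S (U i) N : ℝ) ≤ (G'.card : ℝ) + bad1.card + bad2.card + K₂ := by
      have h5 : cnt S (U i) N ≤ G'.card + bad1.card + bad2.card + K₂ := by omega
      exact_mod_cast h5
    have h5 : 7 / ε ^ 2 * K₂ ≤ (N : ℝ) := by
      have := hκ (i - 1) (by omega)
      have e1 : i - 1 + 1 = i := by omega
      rw [e1] at this
      exact this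
    have hK₂r : (0 : ℝ) < K₂ := by exact_mod_cast hK₂pos
    have hNr : (0 : ℝ) ≤ N := Nat.cast_nonneg _
    have h6 : 7 * (K₂ : ℝ) ≤ e i ^ 2 * N := by
      have h7 : 7 * (K₂ : ℝ) ≤ ε ^ 2 * N := by
        rw [div_mul_eq_mul_div, div_le_iff₀ (by positivity)] at h5
        linarith
      have h8 : ε ^ 2 * (N : ℝ) ≤ e i ^ 2 * N :=
        mul_le_mul_of_nonneg_right (pow_le_pow_left₀ hε.le (he0 i hiL) 2) hNr
      linarith
    have h7 : (N : ℝ) + 2 * K₂ < 3 * G'.card := by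
      have h8 : 3 * (G'.card : ℝ) ≥ 3 * ((1 / 3 + e i) * N - (N * e i / 4 + K₂ / e i) -
          (N * e i / 4 + K₂ / e i) - K₂) := by
        rw [hcN] at h4
        linarith
      have h9 : 5 * (K₂ : ℝ) + 6 * (K₂ / e i) < 3 / 2 * e i * N := by
        have h10 : 5 * (K₂ : ℝ) + 6 * (K₂ / e i) = (5 * e i + 6) * K₂ / e i := by
          field_simp
        rw [h10, div_lt_iff₀ hei]
        have h11 : (5 * e i + 6) * (K₂ : ℝ) ≤ (28 / 3) * K₂ := by
          apply mul_le_mul_of_nonneg_right _ hK₂r.le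
          linarith
        nlinarith
      linarith
    exact_mod_cast h7
  · intro b hb
    obtain ⟨t, ht, rfl⟩ := Finset.mem_image.1 hb
    have h1 := Finset.mem_sdiff.1 (Finset.mem_sdiff.1 ht).1
    by_contra hcon
    exact h1.2 (Finset.mem_filter.2 ⟨(Finset.mem_filter.1 h1.1).1, not_le.1 hcon⟩)
  · intro b hb
    obtain ⟨t, ht, rfl⟩ := Finset.mem_image.1 hb
    have h1 := Finset.mem_sdiff.1 ht
    by_contra hcon
    exact h1.2 (Finset.mem_filter.2 ⟨(Finset.mem_filter.1 (Finset.mem_sdiff.1 h1.1).1).1,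
      not_le.1 hcon⟩)

end SFree
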