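import Pool.Agent.SFree.Core2
import Pool.Agent.SFree.Win

/-!
# Many dense scales, and the row inequality
-/

namespace SFree

open Finset

/-- If a sum-free set of positive integers is dense at many scales, it contains no multiple of some
small `m` up to the first of these scales. -/
theorem key {S : Set ℤ} (hS : SumFree S) (hpos : ∀ s ∈ S, 0 < s) {ε : ℝ} (hε : 0 < ε)
    (hε1 : ε ≤ 1 / 3) {L s : ℕ} (hL : 10 / ε + 3 < L) (hs : (1 - ε / 2) ^ s ≤ ε / 8)
    (κ : ℕ → ℕ) (hκ0 : 2 * 3 ^ s ≤ ε * κ 0)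
    (hκ : ∀ i, i + 1 < L → 7 / ε ^ 2 * κ i ≤ κ (i + 1))
    (hd : ∀ i < L, (1 / 3 + ε) * κ i ≤ (cnt S 0 (κ i) : ℝ)) :
    ∃ m : ℕ, 0 < m ∧ (m : ℝ) ≤ 2 / (3 * ε) ∧ ∀ x ∈ S, x ≤ κ 0 → ¬ (m : ℤ) ∣ x := by
  have hκ0pos : 0 < κ 0 := by
    rcases Nat.eq_zero_or_pos (κ 0) with h | h
    · rw [h] at hκ0
      have : (0 : ℝ) < 2 * 3 ^ s := by positivity
      norm_num at hκ0
      linarith
    · exact h
  obtain ⟨i, hi3, hiL, u, B, hB1, hB2, hB3, hB4, hB5⟩ := windows hε hε1 hL κ hκ0pos hκ hd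
  have hstep : ∀ j, j + 1 < L → (4 / ε) * κ j ≤ (κ (j + 1) : ℝ) := by
    intro j hj
    refine le_trans (mul_le_mul_of_nonneg_right ?_ (Nat.cast_nonneg _)) (hκ j hj)
    rw [div_le_div_iff₀ hε (by positivity)]
    nlinarith
  have hmono : ∀ j, j < L → κ 0 ≤ κ j := by
    intro j
    induction j with
    | zero => intro _; exact le_rfl
    | succ j ih =>
      intro hj
      refine (ih (by omega)).trans ?_
      have h1 := hstep j hj
      have h2 : (κ j : ℝ) ≤ κ (j + 1) := by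
        refine le_trans ?_ h1
        have h3 : (1 : ℝ) ≤ 4 / ε := by
          rw [le_div_iff₀ hε]
          linarith
        have h4 : (0 : ℝ) ≤ κ j := Nat.cast_nonneg _
        nlinarith
      exact_mod_cast h2
  have e1 : i - 3 + 1 = i - 2 := by omega
  have e2 : i - 2 + 1 = i - 1 := by omega
  have hs1 : (4 / ε) * κ (i - 3) ≤ (κ (i - 2) : ℝ) := by
    have := hstep (i - 3) (by omega)
    rwa [e1] at this
  have hs2 : (4 / ε) * κ (i - 2) ≤ (κ (i - 1) : ℝ) := by
    have := hstep (i - 2) (by omega)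
    rwa [e2] at this
  have hs1' : 4 * (κ (i - 3) : ℝ) ≤ ε * κ (i - 2) := by
    rw [div_mul_eq_mul_div, div_le_iff₀ hε] at hs1
    linarith
  have hs2' : 4 * (κ (i - 2) : ℝ) ≤ ε * κ (i - 1) := by
    rw [div_mul_eq_mul_div, div_le_iff₀ hε] at hs2
    linarith
  set l₁ := ⌊ε * κ (i - 2) / 2⌋₊ with hl₁
  set l₂ := ⌊ε * κ (i - 1) / 2⌋₊ with hl₂
  have hl₁' : (l₁ : ℝ) ≤ ε * κ (i - 2) / 2 := Nat.floor_le (by positivity)
  have hl₂' : (l₂ : ℝ) ≤ ε * κ (i - 1) / 2 := Nat.floor_le (by positivity)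
  let D : CoreData S ε :=
    { hS := hS
      hpos := hpos
      hε := hε
      hε1 := hε1
      K₀ := κ (i - 3)
      K₁ := κ (i - 2)
      K₂ := κ (i - 1)
      N := κ i
      s := s
      l₁ := l₁
      l₂ := l₂
      u := u
      B := B
      hBS := hB1
      hBu := hB2
      hB := hB3
      hw1 := hB4
      hw2 := hB5
      hd0 := hd (i - 3) (by omega)
      hd1 := hd (i - 2) (by omega)
      hd2 := hd (i - 1) (by omega)
      hs := hs
      h0 := by
        refine hκ0.trans (mul_le_mul_of_nonneg_left ?_ hε.le)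
        exact_mod_cast hmono (i - 3) (by omega)
      h01 := by
        apply Nat.le_floor
        linarith
      h1 := by linarith
      h12 := by
        apply Nat.le_floor
        push_cast
        have h3 : (0 : ℝ) ≤ κ (i - 2) := Nat.cast_nonneg _
        nlinarith
      h2 := by linarith }
  obtain ⟨m, hm1, hm2, hm3⟩ := D.exists_mod
  refine ⟨m, hm1, hm2, fun x hx hxκ => hm3 x hx (hxκ.trans ?_)⟩
  have := hmono (i - 3) (by omega)
  exact_mod_cast this

/-- a sum-free set has density at most `2/3` in `(0, K]` (in fact about `1/2`) -/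
theorem cnt_le_two_thirds {S : Set ℤ} (hS : SumFree S) (hpos : ∀ s ∈ S, 0 < s) {K : ℕ}
    (hK : 3 ≤ K) : (cnt S 0 K : ℝ) ≤ 2 / 3 * K := by
  classical
  rw [← card_seg]
  rcases (seg S K).eq_empty_or_nonempty with h | h
  · rw [h]
    simp
  · obtain ⟨x, hx, hmax⟩ := Finset.exists_max_image (seg S K) id h
    simp only [id] at hmax
    have hx' := mem_seg.1 hx
    have h1 : (seg S K).card + (seg S K).card ≤ x.toNat + 1 := by
      have h2 : Disjoint ((seg S K).erase x) ((seg S K).image (fun a => x - a)) := by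
        rw [Finset.disjoint_left]
        intro b hb hb'
        obtain ⟨a, ha, hab⟩ := Finset.mem_image.1 hb'
        have h3 := (mem_seg.1 (Finset.mem_of_mem_erase hb)).2
        have h4 := (mem_seg.1 ha).2
        have h5 := hS b h3 a h4
        have h6 : b + a = x := by
          have hab' : x - a = b := hab
          omega
        rw [h6] at h5
        exact h5 hx'.2
      have h3 : ((seg S K).erase x) ∪ ((seg S K).image (fun a => x - a)) ⊆ Ico 0 x := by
        intro b hb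
        rw [Finset.mem_Ico]
        rcases Finset.mem_union.1 hb with hb | hb
        · have h4 := Finset.mem_of_mem_erase hb
          have h5 := hmax b h4
          have h6 := Finset.ne_of_mem_erase hb
          have h7 := (mem_seg.1 h4).1.1
          omega
        · obtain ⟨a, ha, rfl⟩ := Finset.mem_image.1 hb
          have h5 := hmax a ha
          have h7 := (mem_seg.1 ha).1.1
          omega
      have h4 := Finset.card_le_card h3
      rw [Finset.card_union_of_disjoint h2, Finset.card_erase_of_mem hx,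
        Finset.card_image_of_injective _ (fun a b h => by simpa using h), Int.card_Ico] at h4
      have h5 : 0 < (seg S K).card := Finset.card_pos.2 h
      omega
    have h2 : x.toNat ≤ K := by omega
    have h3 : ((seg S K).card : ℝ) + (seg S K).card ≤ K + 1 := by
      exact_mod_cast h1.trans (by omega)
    have h4 : (3 : ℝ) ≤ K := by exact_mod_cast hK
    linarith

open Classical in
/-- the number of scales `ρ ^ j`, `1 ≤ j ≤ J`, below which `S` is empty -/
noncomputable def zer (S : Set ℤ) (ρ J : ℕ) : ℕ :=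
  ((Icc 1 J).filter (fun j => cnt S 0 (ρ ^ j) = 0)).card

/-- the sum of the densities at the scales `ρ ^ j`, `1 ≤ j ≤ J` -/
noncomputable def tot (S : Set ℤ) (ρ J : ℕ) : ℝ := ∑ j ∈ Icc 1 J, (cnt S 0 (ρ ^ j) : ℝ) / (ρ ^ j : ℕ)

theorem zer_le (S : Set ℤ) (ρ J : ℕ) : zer S ρ J ≤ J := by
  classical
  unfold zer
  refine (Finset.card_filter_le _ _).trans ?_
  simp

/-- The row inequality. -/
theorem row {S : Set ℤ} (hS : SumFree S) (hpos : ∀ s ∈ S, 0 < s) {R s ρ J : ℕ} (hR : 2 ≤ R)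
    (hs : ∀ r, 2 ≤ r → r ≤ R → (1 - (1 / 2 : ℝ) ^ r / 2) ^ s ≤ (1 / 2 : ℝ) ^ r / 8)
    (hρ1 : 7 * 4 ^ R ≤ ρ) (hρ2 : 2 * 3 ^ s * 2 ^ R ≤ ρ) (hρ3 : (2 ^ R).factorial ≤ ρ) :
    tot S ρ J ≤ (J : ℝ) / 3 + ((zer {y | ((2 ^ R).factorial : ℤ) * y ∈ S} ρ J : ℝ) -
      zer S ρ J) / 3 + J / 2 ^ R + 1 / 3 + 22 * R := by
  classical
  have hρ7 : 7 ≤ ρ := by
    have : 1 ≤ 4 ^ R := Nat.one_le_pow _ _ (by norm_num)
    omega
  have hρpos : 0 < ρ := by omega
  set a : ℕ → ℝ := fun j => (cnt S 0 (ρ ^ j) : ℝ) / (ρ ^ j : ℕ) with ha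
  have hρj : ∀ j : ℕ, (0 : ℝ) < ((ρ ^ j : ℕ) : ℝ) := fun j => by positivity
  -- typed scales
  let Ty : ℕ → Prop := fun j => ∃ m : ℕ, 0 < m ∧ m ≤ 2 ^ R ∧ ∀ x ∈ S, x ≤ (ρ ^ j : ℕ) → ¬ (m : ℤ) ∣ x
  obtain ⟨t, ht1, ht2, ht3⟩ : ∃ t ≤ J, (t = 0 ∨ Ty t) ∧ ∀ j, t < j → j ≤ J → ¬ Ty j := by
    induction J with
    | zero => exact ⟨0, le_rfl, Or.inl rfl, fun j h1 h2 => by omega⟩
    | succ J ih =>
      by_cases h : Ty (J + 1)
      · exact ⟨J + 1, le_rfl, Or.inr h, fun j h1 h2 => by omega⟩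
      · obtain ⟨t, h1, h2, h3⟩ := ih
        refine ⟨t, by omega, h2, fun j h4 h5 => ?_⟩
        rcases Nat.eq_or_lt_of_le h5 with rfl | h5
        · exact h
        · exact h3 j h4 (by omega)
  let Dn : ℕ → Finset ℕ := fun r => (Icc 1 J).filter
    (fun j => t < j ∧ (1 / 3 + (1 / 2 : ℝ) ^ r) * ((ρ ^ j : ℕ) : ℝ) ≤ (cnt S 0 (ρ ^ j) : ℝ))
  have hDn : ∀ r, 2 ≤ r → r ≤ R → (Dn r).card < 10 * 2 ^ r + 4 := by
    intro r hr hrR
    by_contra hcon
    push Not at hcon
    set X := Dn r with hX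
    set L := 10 * 2 ^ r + 4 with hL
    let κ : ℕ → ℕ := fun i => if h : i < X.card then ρ ^ (X.orderEmbOfFin rfl ⟨i, h⟩) else 0
    have hκdef : ∀ i (h : i < X.card), κ i = ρ ^ (X.orderEmbOfFin rfl ⟨i, h⟩) := by
      intro i h
      simp only [κ, h, dif_pos]
    have hmemX : ∀ i (h : i < X.card), X.orderEmbOfFin rfl ⟨i, h⟩ ∈ X := fun i h =>
      Finset.orderEmbOfFin_mem _ _ _
    have hε : (0 : ℝ) < (1 / 2) ^ r := by positivity
    have hε1 : ((1 : ℝ) / 2) ^ r ≤ 1 / 3 := by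
      have h1 : ((1 : ℝ) / 2) ^ r ≤ (1 / 2) ^ 2 :=
        pow_le_pow_of_le_one (by norm_num) (by norm_num) hr
      norm_num at h1 ⊢
      linarith
    have hεR : ((1 : ℝ) / 2) ^ R ≤ (1 / 2) ^ r :=
      pow_le_pow_of_le_one (by norm_num) (by norm_num) hrR
    have e2 : ((1 : ℝ) / 2) ^ r = 1 / 2 ^ r := by rw [one_div_pow]
    have e2R : ((1 : ℝ) / 2) ^ R = 1 / 2 ^ R := by rw [one_div_pow]
    have hX0 : 0 < X.card := by omega
    obtain ⟨m, hm1, hm2, hm3⟩ := key hS hpos hε hε1 (L := L) (s := s) (by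
        rw [e2]
        push_cast [hL]
        have : (10 : ℝ) / (1 / 2 ^ r) = 10 * 2 ^ r := by
          field_simp
        rw [this]
        linarith) (hs r hr hrR) κ (by
        rw [hκdef 0 hX0]
        have h1 : 1 ≤ X.orderEmbOfFin rfl ⟨0, hX0⟩ := by
          have := hmemX 0 hX0
          have h2 := (Finset.mem_filter.1 this).1
          exact (Finset.mem_Icc.1 h2).1
        have h2 : ρ ≤ ρ ^ (X.orderEmbOfFin rfl ⟨0, hX0⟩) := Nat.le_self_pow (by omega) ρ
        have h3 : 2 * 3 ^ s * 2 ^ R ≤ ρ ^ (X.orderEmbOfFin rfl ⟨0, hX0⟩) := hρ2.trans h2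
        have h4 : (2 : ℝ) * 3 ^ s * 2 ^ R ≤ ((ρ ^ (X.orderEmbOfFin rfl ⟨0, hX0⟩) : ℕ) : ℝ) := by
          exact_mod_cast h3
        have h5 : ((1 : ℝ) / 2) ^ R * (2 * 3 ^ s * 2 ^ R) = 2 * 3 ^ s := by
          rw [e2R]
          field_simp
        calc (2 : ℝ) * 3 ^ s = ((1 : ℝ) / 2) ^ R * (2 * 3 ^ s * 2 ^ R) := h5.symm
          _ ≤ ((1 : ℝ) / 2) ^ r * ((ρ ^ (X.orderEmbOfFin rfl ⟨0, hX0⟩) : ℕ) : ℝ) :=
            mul_le_mul hεR h4 (by positivity) hε.le) (by
        intro i hi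
        have hi1 : i < X.card := by omega
        have hi2 : i + 1 < X.card := by omega
        rw [hκdef i hi1, hκdef (i + 1) hi2]
        have h1 : X.orderEmbOfFin rfl ⟨i, hi1⟩ < X.orderEmbOfFin rfl ⟨i + 1, hi2⟩ := by
          apply (X.orderEmbOfFin rfl).strictMono
          simp
        have h2 : ρ ^ (X.orderEmbOfFin rfl ⟨i, hi1⟩ + 1) ≤
            ρ ^ (X.orderEmbOfFin rfl ⟨i + 1, hi2⟩) := Nat.pow_le_pow_right hρpos h1
        rw [pow_succ] at h2
        have h3 : 7 * 4 ^ r ≤ ρ := by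
          refine le_trans ?_ hρ1
          exact Nat.mul_le_mul_left _ (Nat.pow_le_pow_right (by norm_num) hrR)
        have h4 : (7 : ℝ) / ((1 / 2) ^ r) ^ 2 = 7 * 4 ^ r := by
          rw [e2]
          have : (4 : ℝ) ^ r = (2 ^ r) ^ 2 := by
            rw [← pow_mul, mul_comm, pow_mul]
            norm_num
          rw [this]
          field_simp
        rw [h4]
        have h5 : (7 * 4 ^ r) * ρ ^ (X.orderEmbOfFin rfl ⟨i, hi1⟩) ≤
            ρ ^ (X.orderEmbOfFin rfl ⟨i + 1, hi2⟩) := by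
          refine le_trans ?_ h2
          rw [mul_comm]
          exact Nat.mul_le_mul_left _ h3
        exact_mod_cast h5) (by
        intro i hi
        have hi1 : i < X.card := by omega
        rw [hκdef i hi1]
        exact (Finset.mem_filter.1 (hmemX i hi1)).2.2)
    have hj := Finset.mem_filter.1 (hmemX 0 hX0)
    apply ht3 (X.orderEmbOfFin rfl ⟨0, hX0⟩) hj.2.1 (Finset.mem_Icc.1 hj.1).2
    refine ⟨m, hm1, ?_, fun x hx hxκ => hm3 x hx (by rw [hκdef 0 hX0]; exact hxκ)⟩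
    have h1 : (m : ℝ) ≤ 2 ^ r := by
      refine hm2.trans ?_
      rw [e2]
      have : (2 : ℝ) / (3 * (1 / 2 ^ r)) = 2 / 3 * 2 ^ r := by
        field_simp
      rw [this]
      have : (0 : ℝ) < 2 ^ r := by positivity
      linarith
    have h2 : m ≤ 2 ^ r := by exact_mod_cast h1
    exact h2.trans (Nat.pow_le_pow_right (by norm_num) hrR)
  -- the zero scales of the dilate
  have hzero : t ≤ zer {y | ((2 ^ R).factorial : ℤ) * y ∈ S} ρ J + 1 := by
    rcases ht2 with h0 | ⟨m, hm1, hm2, hm3⟩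
    · omega
    · have h1 : Icc 1 (t - 1) ⊆ (Icc 1 J).filter
          (fun j => cnt {y | ((2 ^ R).factorial : ℤ) * y ∈ S} 0 (ρ ^ j) = 0) := by
        intro j hj
        rw [Finset.mem_Icc] at hj
        rw [Finset.mem_filter, Finset.mem_Icc]
        refine ⟨⟨hj.1, by omega⟩, ?_⟩
        unfold cnt
        rw [Finset.card_eq_zero, Finset.filter_eq_empty_iff]
        intro y hy hyS
        rw [Finset.mem_Ioc] at hy
        change ((2 ^ R).factorial : ℤ) * y ∈ S at hyS
        apply hm3 _ hyS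
        · have h2 : y ≤ ((ρ ^ j : ℕ) : ℤ) := by simpa using hy.2
          have h3 : (2 ^ R).factorial * ρ ^ j ≤ ρ ^ t := by
            calc (2 ^ R).factorial * ρ ^ j ≤ ρ * ρ ^ j := Nat.mul_le_mul_right _ hρ3
              _ = ρ ^ (j + 1) := by rw [pow_succ, mul_comm]
              _ ≤ ρ ^ t := Nat.pow_le_pow_right hρpos (by omega)
          calc ((2 ^ R).factorial : ℤ) * y ≤ ((2 ^ R).factorial : ℤ) * ((ρ ^ j : ℕ) : ℤ) :=
                mul_le_mul_of_nonneg_left h2 (by positivity)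
            _ ≤ ((ρ ^ t : ℕ) : ℤ) := by exact_mod_cast h3
        · refine Dvd.dvd.mul_right ?_ y
          exact_mod_cast (Nat.dvd_factorial hm1 hm2)
      have h2 := Finset.card_le_card h1
      rw [Nat.card_Icc] at h2
      have h3 : zer {y | ((2 ^ R).factorial : ℤ) * y ∈ S} ρ J = ((Icc 1 J).filter
          (fun j => cnt {y | ((2 ^ R).factorial : ℤ) * y ∈ S} 0 (ρ ^ j) = 0)).card := rfl
      rw [h3]
      omega
  -- pointwise bound
  have hpt : ∀ j ∈ Icc 1 J, a j ≤ 1 / 3 * (1 - if cnt S 0 (ρ ^ j) = 0 then 1 else 0) +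
      1 / 2 ^ R + 1 / 3 * (if j ≤ t then 1 else 0) +
      ∑ r ∈ Icc 2 R, 2 * (1 / 2 : ℝ) ^ r * (if j ∈ Dn r then 1 else 0) := by
    intro j hj
    have hj' := Finset.mem_Icc.1 hj
    have hsum0 : (0 : ℝ) ≤ ∑ r ∈ Icc 2 R, 2 * (1 / 2 : ℝ) ^ r * (if j ∈ Dn r then 1 else 0) := by
      refine Finset.sum_nonneg (fun r _ => ?_)
      split_ifs <;> positivity
    have h2R : (0 : ℝ) < 1 / 2 ^ R := by positivity
    by_cases h0 : cnt S 0 (ρ ^ j) = 0
    · have : a j = 0 := by simp [ha, h0]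
      rw [this, if_pos h0]
      have : (0 : ℝ) ≤ 1 / 3 * (if j ≤ t then 1 else 0) := by split_ifs <;> norm_num
      linarith
    · rw [if_neg h0]
      have h3 : 3 ≤ ρ ^ j := by
        have : ρ ≤ ρ ^ j := Nat.le_self_pow (by omega) ρ
        omega
      have h23 : a j ≤ 2 / 3 := by
        simp only [ha]
        rw [div_le_iff₀ (hρj j)]
        exact cnt_le_two_thirds hS hpos h3
      by_cases hjt : j ≤ t
      · rw [if_pos hjt]
        linarith
      · rw [if_neg hjt]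
        have hjt' : t < j := not_le.1 hjt
        have hnot : ∀ r, j ∉ Dn r → a j < 1 / 3 + (1 / 2 : ℝ) ^ r := by
          intro r hr
          by_contra hcon
          apply hr
          rw [Finset.mem_filter]
          refine ⟨hj, hjt', ?_⟩
          have := not_lt.1 hcon
          simp only [ha] at this
          rwa [le_div_iff₀ (hρj j)] at this
        by_cases hall : j ∈ Dn R
        · -- minimal r
          have hex : ∃ r, 2 ≤ r ∧ r ≤ R ∧ j ∈ Dn r := ⟨R, hR, le_rfl, hall⟩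
          obtain ⟨hr2, hrR, hrj⟩ := Nat.find_spec hex
          set r := Nat.find hex with hr
          have hle : a j ≤ 1 / 3 + 2 * (1 / 2 : ℝ) ^ r := by
            by_cases hr3 : r = 2
            · rw [hr3]
              norm_num
              linarith
            · have h4 : j ∉ Dn (r - 1) := by
                intro h5
                exact Nat.find_min hex (show r - 1 < Nat.find hex by omega)
                  ⟨by omega, by omega, h5⟩
              have h5 := hnot (r - 1) h4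
              have h6 : (1 / 2 : ℝ) ^ (r - 1) = 2 * (1 / 2 : ℝ) ^ r := by
                have e1 : r = (r - 1) + 1 := by omega
                conv_rhs => rw [e1]
                rw [pow_succ]
                ring
              rw [h6] at h5
              exact h5.le
          have hsum : 2 * (1 / 2 : ℝ) ^ r ≤
              ∑ r ∈ Icc 2 R, 2 * (1 / 2 : ℝ) ^ r * (if j ∈ Dn r then 1 else 0) := by
            have h7 := Finset.single_le_sum (f := fun r : ℕ => 2 * (1 / 2 : ℝ) ^ r *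
              (if j ∈ Dn r then 1 else 0)) (s := Icc 2 R) (fun r _ => by
                split_ifs <;> positivity) (Finset.mem_Icc.2 ⟨hr2, hrR⟩)
            simp only [hrj, if_true, mul_one] at h7
            exact h7
          linarith
        · have h4 := hnot R hall
          have e1 : (1 / 2 : ℝ) ^ R = 1 / 2 ^ R := by rw [one_div_pow]
          rw [e1] at h4
          linarith
  -- summation
  have hsum := Finset.sum_le_sum hpt
  have e1 : tot S ρ J = ∑ j ∈ Icc 1 J, a j := rfl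
  rw [e1]
  refine hsum.trans ?_
  rw [Finset.sum_add_distrib, Finset.sum_add_distrib, Finset.sum_add_distrib, ← Finset.mul_sum,
    ← Finset.mul_sum, Finset.sum_sub_distrib]
  have s1 : (∑ j ∈ Icc 1 J, (1 : ℝ)) = J := by simp
  have s2 : (∑ j ∈ Icc 1 J, (if cnt S 0 (ρ ^ j) = 0 then (1 : ℝ) else 0)) = zer S ρ J := by
    unfold zer
    rw [Finset.card_filter]
    push_cast
    rfl
  have s3 : (∑ j ∈ Icc 1 J, (1 : ℝ) / 2 ^ R) = J / 2 ^ R := by
    rw [Finset.sum_const, Nat.card_Icc, nsmul_eq_mul]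
    simp
    ring
  have s4 : (∑ j ∈ Icc 1 J, (if j ≤ t then (1 : ℝ) else 0)) ≤ t := by
    rw [← Finset.sum_filter, Finset.sum_const, nsmul_eq_mul, mul_one]
    have h1 : (Icc 1 J).filter (fun j => j ≤ t) ⊆ Icc 1 t := by
      intro j hj
      rw [Finset.mem_filter, Finset.mem_Icc] at hj
      rw [Finset.mem_Icc]
      omega
    have h2 := Finset.card_le_card h1
    rw [Nat.card_Icc] at h2
    exact_mod_cast h2.trans (by omega)
  have s5 : (∑ j ∈ Icc 1 J, ∑ r ∈ Icc 2 R, 2 * (1 / 2 : ℝ) ^ r * (if j ∈ Dn r then 1 else 0)) ≤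
      22 * R := by
    rw [Finset.sum_comm]
    have h1 : ∀ r ∈ Icc 2 R, (∑ j ∈ Icc 1 J, 2 * (1 / 2 : ℝ) ^ r * (if j ∈ Dn r then 1 else 0)) ≤
        22 := by
      intro r hr
      rw [Finset.mem_Icc] at hr
      rw [← Finset.mul_sum, ← Finset.sum_filter, Finset.sum_const, nsmul_eq_mul, mul_one]
      have h2 : (Icc 1 J).filter (fun j => j ∈ Dn r) = Dn r := by
        ext j
        simp only [Finset.mem_filter, Dn]
        tauto
      rw [h2]
      have h3 := hDn r hr.1 hr.2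
      have h4 : ((Dn r).card : ℝ) ≤ 10 * 2 ^ r + 4 := by exact_mod_cast h3.le
      have h5 : (1 / 2 : ℝ) ^ r * 2 ^ r = 1 := by
        rw [← mul_pow]
        norm_num
      have h6 : (1 / 2 : ℝ) ^ r ≤ 1 / 4 := by
        have h1 : ((1 : ℝ) / 2) ^ r ≤ (1 / 2) ^ 2 :=
          pow_le_pow_of_le_one (by norm_num) (by norm_num) hr.1
        norm_num at h1 ⊢
        linarith
      have h7 : (0 : ℝ) < (1 / 2 : ℝ) ^ r := by positivity
      calc 2 * (1 / 2 : ℝ) ^ r * (Dn r).card ≤ 2 * (1 / 2 : ℝ) ^ r * (10 * 2 ^ r + 4) :=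
            mul_le_mul_of_nonneg_left h4 (by positivity)
        _ = 20 * ((1 / 2 : ℝ) ^ r * 2 ^ r) + 8 * (1 / 2 : ℝ) ^ r := by ring
        _ ≤ 22 := by rw [h5]; linarith
    refine (Finset.sum_le_sum h1).trans ?_
    rw [Finset.sum_const, Nat.card_Icc, nsmul_eq_mul]
    have : ((R + 1 - 2 : ℕ) : ℝ) ≤ R := by exact_mod_cast (by omega : R + 1 - 2 ≤ R)
    linarith
  rw [s1, s2, s3]
  have hzero' : (t : ℝ) ≤ (zer {y | ((2 ^ R).factorial : ℤ) * y ∈ S} ρ J : ℝ) + 1 := by
    exact_mod_cast hzero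
  have hfin : (1 : ℝ) / 3 * (J - zer S ρ J) + J / 2 ^ R +
      1 / 3 * ∑ j ∈ Icc 1 J, (if j ≤ t then (1 : ℝ) else 0) +
      ∑ j ∈ Icc 1 J, ∑ r ∈ Icc 2 R, 2 * (1 / 2 : ℝ) ^ r * (if j ∈ Dn r then 1 else 0) ≤
      1 / 3 * (J - zer S ρ J) + J / 2 ^ R + 1 / 3 * t + 22 * R := by
    linarith
  refine hfin.trans ?_
  linarith

end SFree
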